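import Pool.Agent.Helper647_GL.Kb

/-! The value of the best test matrix on the critical zeros in an interval of length one mean
spacing, as a function of their number. -/

open Complex Filter Topology Set MeasureTheory
open scoped BigOperators ComplexConjugate

namespace Pool.Agent.Helper647.GL

open H370 Pool.Agent.W201 Pool.Agent.R304.GR

/-- the weights -/
noncomputable def vv (n : ℕ) : ℝ :=
  if n = 0 then 0 else if n = 1 then 1 else if n = 3 then 1.2575 else if n = 4 then 1.5 else 2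

lemma vv_nonneg (n : ℕ) : 0 ≤ vv n := by
  unfold vv; split_ifs <;> norm_num

lemma vv_le (n : ℕ) : vv n ≤ 2 := by
  unfold vv; split_ifs <;> norm_num

lemma KK_half {u : ℝ} (h0 : 0 ≤ u) (h1 : u ≤ 1 / 2) : 0.66 ≤ H344.KK u := by
  rcases le_or_gt u (3 / 10) with c1 | c1
  · have h2 := H344.KK_lower u
    have h3 := Expl.cMTinv_num
    have h4 : (2 * Real.pi * u) ^ 2 / 2 * (cMTinv - 5 / 4) ≤ 19.7394 * u ^ 2 * 0.077503 := by
      have h5 : (2 * Real.pi * u) ^ 2 / 2 = 2 * Real.pi ^ 2 * u ^ 2 := by ring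
      rw [h5]
      apply mul_le_mul
      · have := pi_sq_hi
        have h6 : 0 ≤ u ^ 2 := sq_nonneg u
        nlinarith
      · linarith
      · have := H344.cMTinv_ge; linarith
      · positivity
    have h7 : u ^ 2 ≤ (3 / 10) ^ 2 := pow_le_pow_left₀ h0 c1 2
    norm_num at h4 h7 ⊢
    linarith
  · have h2 := ell_le (w := 1 / 2 - u) (by linarith) (by linarith)
    rw [show 1 / 2 - (1 / 2 - u) = u by ring] at h2
    refine le_trans ?_ h2
    unfold ell
    have h3 : 0 ≤ 1 / 2 - u := by linarith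
    have h4 : 1 / 2 - u ≤ 1 / 5 := by linarith
    set w := 1 / 2 - u
    have h5 : 0 ≤ w * (1 / 5 - w) := mul_nonneg h3 (by linarith)
    have h6 : w ^ 2 ≤ w * (1 / 5) := by nlinarith
    have h7 : w ^ 3 ≤ w * (1 / 25) := by
      have : w ^ 3 = w * w ^ 2 := by ring
      rw [this]
      apply mul_le_mul_of_nonneg_left _ h3
      nlinarith
    norm_num
    nlinarith

section

variable {σ θ Λ s : ℝ} (hσ0 : 0 < σ) (hθ0 : 0 < θ) (hΛ : Λ * σ = 2 * Real.pi * θ)

include hσ0 hΛ in
lemma phi_scaled (x y : ℝ) : (phi Λ ((x : ℂ) - y)).re =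
      H344.KK (θ * ((y - x) / σ)) * Real.exp (-(y - x) ^ 2 / 8) := by
  rw [phi_sub_symm, phi_sub_re]
  unfold H344.KK
  congr 4
  have : Λ = 2 * Real.pi * θ / σ := by rw [← hΛ]; field_simp
  rw [this]
  field_simp

lemma exp_sq_low (z : ℝ) : 0 < Real.exp (-z ^ 2 / 8) ∧ Real.exp (-z ^ 2 / 8) ≤ 1 ∧
    1 - z ^ 2 / 8 ≤ Real.exp (-z ^ 2 / 8) := by
  refine ⟨Real.exp_pos _, Real.exp_le_one_iff.mpr (by nlinarith [sq_nonneg z]), ?_⟩
  have := Real.add_one_le_exp (-z ^ 2 / 8)
  linarith

include hσ0 hΛ in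
lemma phi_abs (x y : ℝ) : |(phi Λ ((x : ℂ) - y)).re| ≤ 1 := by
  rw [phi_scaled hσ0 hΛ, abs_mul]
  obtain ⟨h1, h2, _⟩ := exp_sq_low (y - x)
  rw [abs_of_pos h1]
  have := KK_abs (θ * ((y - x) / σ))
  calc _ ≤ 1 * 1 := mul_le_mul this h2 h1.le (by norm_num)
    _ = 1 := by norm_num

include hσ0 hΛ in
lemma phi_sq (x y : ℝ) : H344.KK (θ * ((y - x) / σ)) ^ 2 - (y - x) ^ 2 / 4 ≤
    (phi Λ ((x : ℂ) - y)).re ^ 2 := by
  rw [phi_scaled hσ0 hΛ, mul_pow]
  obtain ⟨h1, h2, h3⟩ := exp_sq_low (y - x)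
  have h4 : H344.KK (θ * ((y - x) / σ)) ^ 2 ≤ 1 := by
    have := KK_abs (θ * ((y - x) / σ))
    rw [← sq_abs]
    exact pow_le_one₀ (abs_nonneg _) this
  have h5 : 1 - (y - x) ^ 2 / 4 ≤ Real.exp (-(y - x) ^ 2 / 8) ^ 2 := by nlinarith
  have h6 : 0 ≤ H344.KK (θ * ((y - x) / σ)) ^ 2 := sq_nonneg _
  have h7 : 0 ≤ (y - x) ^ 2 := sq_nonneg _
  nlinarith

include hσ0 hθ0 hΛ in
lemma phi_half {x y : ℝ} (h : |y - x| ≤ s) (hs : s ^ 2 ≤ 1 / 10 ^ 5) (h1 : θ * (|y - x| / σ) ≤ 1 / 2) :
    0.659 ≤ (phi Λ ((x : ℂ) - y)).re := by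
  have key : ∀ x y : ℝ, x ≤ y → y - x ≤ s → θ * ((y - x) / σ) ≤ 1 / 2 →
      0.659 ≤ (phi Λ ((x : ℂ) - y)).re := by
    intro x y hxy h h1
    rw [phi_scaled hσ0 hΛ]
    have h0 : 0 ≤ θ * ((y - x) / σ) := mul_nonneg hθ0.le (div_nonneg (by linarith) hσ0.le)
    have h2 := KK_half h0 h1
    obtain ⟨a1, a2, a3⟩ := exp_sq_low (y - x)
    have h3 : (y - x) ^ 2 ≤ s ^ 2 := pow_le_pow_left₀ (by linarith) h 2
    have h4 : 1 - 1 / 10 ^ 5 / 8 ≤ Real.exp (-(y - x) ^ 2 / 8) := by linarith
    calc (0.659 : ℝ) ≤ 0.66 * (1 - 1 / 10 ^ 5 / 8) := by norm_num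
      _ ≤ _ := mul_le_mul h2 h4 (by norm_num) (by linarith)
  rcases le_total x y with hxy | hxy
  · rw [abs_of_nonneg (by linarith)] at h h1
    exact key x y hxy h h1
  · rw [abs_of_nonpos (by linarith), neg_sub] at h h1
    rw [phi_symm']
    exact key y x hxy h h1

/-- three simple points in terms of the two values of the kernel -/
lemma Has.triple' {m : ℝ → ℕ} {x y z : ℝ} (hxy : x ≠ y) (hyz : y ≠ z) (hxz : x ≠ z)
    (hx : m x = 1) (hy : m y = 1) (hz : m z = 1) {q : ℝ}
    (h1 : (phi Λ ((x : ℂ) - y)).re ^ 2 + (phi Λ ((y : ℂ) - z)).re ^ 2 ≤ 1 →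
      q ≤ 3 + 2 * ((phi Λ ((x : ℂ) - y)).re ^ 2 + (phi Λ ((y : ℂ) - z)).re ^ 2))
    (h2 : 1 < (phi Λ ((x : ℂ) - y)).re ^ 2 + (phi Λ ((y : ℂ) - z)).re ^ 2 →
      q ≤ 1 + 4 * Real.sqrt ((phi Λ ((x : ℂ) - y)).re ^ 2 + (phi Λ ((y : ℂ) - z)).re ^ 2)) :
    Has Λ m q {x, y, z} := by
  set a := (phi Λ ((x : ℂ) - y)).re with ha
  set b := (phi Λ ((y : ℂ) - z)).re with hb
  rcases le_or_gt (a ^ 2 + b ^ 2) 1 with h | h
  · refine (Has.triple hxy hyz hxz hx hy hz (t := a) (u := b) h).mono ((h1 h).trans (le_of_eq ?_))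
    rw [← ha, ← hb]
    ring
  · have hS0 : 0 < a ^ 2 + b ^ 2 := by linarith
    set r := Real.sqrt (a ^ 2 + b ^ 2) with hr
    have hr0 : 0 < r := Real.sqrt_pos.2 hS0
    have hr2 : r ^ 2 = a ^ 2 + b ^ 2 := Real.sq_sqrt hS0.le
    have e : (a / r) ^ 2 + (b / r) ^ 2 = 1 := by
      rw [div_pow, div_pow, ← add_div, ← hr2]
      exact div_self (by positivity)
    refine (Has.triple hxy hyz hxz hx hy hz (t := a / r) (u := b / r) e.le).mono
      ((h2 h).trans (le_of_eq ?_))
    rw [← ha, ← hb, e]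
    have e2 : a / r * a + b / r * b = r := by
      rw [div_mul_eq_mul_div, div_mul_eq_mul_div, ← add_div, ← sq, ← sq, ← hr2]
      field_simp
    rw [e2]
    ring

lemma card3 (S : Finset ℝ) (h : S.card = 3) : ∃ x y z : ℝ, x < y ∧ y < z ∧ S = {x, y, z} := by
  have hf := S.range_orderEmbOfFin h
  refine ⟨S.orderEmbOfFin h 0, S.orderEmbOfFin h 1, S.orderEmbOfFin h 2, ?_, ?_, ?_⟩
  · exact (S.orderEmbOfFin h).strictMono (by decide)
  · exact (S.orderEmbOfFin h).strictMono (by decide)
  · ext a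
    have h1 := Set.ext_iff.1 hf a
    simp only [Set.mem_range, Finset.mem_coe] at h1
    rw [← h1]
    simp only [Finset.mem_insert, Finset.mem_singleton]
    constructor
    · rintro ⟨i, rfl⟩
      fin_cases i <;> simp
    · rintro (rfl | rfl | rfl)
      · exact ⟨0, rfl⟩
      · exact ⟨1, rfl⟩
      · exact ⟨2, rfl⟩

lemma card4 (S : Finset ℝ) (h : S.card = 4) :
    ∃ x y z w : ℝ, x < y ∧ y < z ∧ z < w ∧ S = {x, y, z, w} := by
  have hf := S.range_orderEmbOfFin h
  refine ⟨S.orderEmbOfFin h 0, S.orderEmbOfFin h 1, S.orderEmbOfFin h 2, S.orderEmbOfFin h 3,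
    ?_, ?_, ?_, ?_⟩
  · exact (S.orderEmbOfFin h).strictMono (by decide)
  · exact (S.orderEmbOfFin h).strictMono (by decide)
  · exact (S.orderEmbOfFin h).strictMono (by decide)
  · ext a
    have h1 := Set.ext_iff.1 hf a
    simp only [Set.mem_range, Finset.mem_coe] at h1
    rw [← h1]
    simp only [Finset.mem_insert, Finset.mem_singleton]
    constructor
    · rintro ⟨i, rfl⟩
      fin_cases i <;> simp
    · rintro (rfl | rfl | rfl | rfl)
      · exact ⟨0, rfl⟩
      · exact ⟨1, rfl⟩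
      · exact ⟨2, rfl⟩
      · exact ⟨3, rfl⟩

lemma Has.single {m : ℝ → ℕ} {S : Finset ℝ} (hm : ∀ x ∈ S, m x = 1) :
    Has Λ m (S.card : ℝ) S := by
  refine (Has.of_cost hm (Cost.zero_of_card (q := (S.card : ℝ)) le_rfl)).mono ?_
  linarith

include hσ0 hθ0 hΛ in
/-- three simple points in a cell -/
lemma Has.three {m : ℝ → ℕ} (hs0 : 0 ≤ s) (hs1 : θ * (s / σ) ≤ 1) (hs2 : s ^ 2 ≤ 1 / 10 ^ 5)
    {S : Finset ℝ} (hm : ∀ x ∈ S, m x = 1) (hS : ∀ x ∈ S, ∀ y ∈ S, y - x ≤ s) (hc : S.card = 3) :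
    Has Λ m 4.7425 S := by
  obtain ⟨x, y, z, hxy, hyz, rfl⟩ := card3 S hc
  have hzx : z - x ≤ s := hS x (by simp) z (by simp)
  have e : ∀ g : ℝ, θ * (g / σ) = θ / σ * g := by intro g; ring
  have hts : 0 < θ / σ := div_pos hθ0 hσ0
  have h1 := phi_sq hσ0 hΛ x y
  have h2 := phi_sq hσ0 hΛ y z
  have h3 := KK_two (u := θ * ((y - x) / σ)) (v := θ * ((z - y) / σ))
    (by rw [e]; exact mul_nonneg hts.le (by linarith))
    (by rw [e]; exact mul_nonneg hts.le (by linarith)) (by
      refine le_trans ?_ hs1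
      rw [e, e, e, ← mul_add]
      apply mul_le_mul_of_nonneg_left _ hts.le
      linarith)
  have h4 : (y - x) ^ 2 ≤ s ^ 2 := pow_le_pow_left₀ (by linarith) (by linarith) 2
  have h5 : (z - y) ^ 2 ≤ s ^ 2 := pow_le_pow_left₀ (by linarith) (by linarith) 2
  have h6 : 0.8713 ≤ (phi Λ ((x : ℂ) - y)).re ^ 2 + (phi Λ ((y : ℂ) - z)).re ^ 2 := by
    norm_num at h3 hs2 ⊢
    linarith
  refine Has.triple' hxy.ne hyz.ne (hxy.trans hyz).ne (hm x (by simp)) (hm y (by simp))
    (hm z (by simp)) (fun _ => ?_) (fun h => ?_)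
  · norm_num at h6 ⊢
    linarith
  · have : 1 ≤ Real.sqrt ((phi Λ ((x : ℂ) - y)).re ^ 2 + (phi Λ ((y : ℂ) - z)).re ^ 2) := by
      rw [Real.one_le_sqrt]; exact h.le
    norm_num
    linarith

include hσ0 hθ0 hΛ in
/-- four simple points in a cell -/
lemma Has.four {m : ℝ → ℕ} (hs0 : 0 ≤ s) (hs1 : θ * (s / σ) ≤ 1) (hs2 : s ^ 2 ≤ 1 / 10 ^ 5)
    {S : Finset ℝ} (hm : ∀ x ∈ S, m x = 1) (hS : ∀ x ∈ S, ∀ y ∈ S, y - x ≤ s) (hc : S.card = 4) :
    Has Λ m 6.5 S := by
  classical
  obtain ⟨x, y, z, w, hxy, hyz, hzw, rfl⟩ := card4 S hc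
  have hwx : w - x ≤ s := hS x (by simp) w (by simp)
  have e : ∀ g : ℝ, θ * (g / σ) = θ / σ * g := by intro g; ring
  have hts : 0 < θ / σ := div_pos hθ0 hσ0
  have h1 := phi_sq hσ0 hΛ x y
  have h2 := phi_sq hσ0 hΛ y z
  have h3 := phi_sq hσ0 hΛ z w
  have a1 : (y - x) ^ 2 ≤ s ^ 2 := pow_le_pow_left₀ (by linarith) (by linarith) 2
  have a2 : (z - y) ^ 2 ≤ s ^ 2 := pow_le_pow_left₀ (by linarith) (by linarith) 2
  have a3 : (w - z) ^ 2 ≤ s ^ 2 := pow_le_pow_left₀ (by linarith) (by linarith) 2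
  set a := (phi Λ ((x : ℂ) - y)).re with ha
  set b := (phi Λ ((y : ℂ) - z)).re with hb
  set c := (phi Λ ((z : ℂ) - w)).re with hcc
  rw [e] at h1 h2 h3 hs1
  set g1 := θ / σ * (y - x) with hg1
  set g2 := θ / σ * (z - y) with hg2
  set g3 := θ / σ * (w - z) with hg3
  have b1 : 0 ≤ g1 := mul_nonneg hts.le (by linarith)
  have b2 : 0 ≤ g2 := mul_nonneg hts.le (by linarith)
  have b3 : 0 ≤ g3 := mul_nonneg hts.le (by linarith)
  have bs : g1 + g2 + g3 ≤ 1 := by
    refine le_trans ?_ hs1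
    rw [hg1, hg2, hg3, ← mul_add, ← mul_add]
    apply mul_le_mul_of_nonneg_left _ hts.le
    linarith
  have mx := hm x (by simp)
  have my := hm y (by simp)
  have mz := hm z (by simp)
  have mw := hm w (by simp)
  have hxz : x < z := hxy.trans hyz
  have hyw : y < w := hyz.trans hzw
  have hxw : x < w := hxz.trans hzw
  have root : ∀ q : ℝ, 1.3199 ≤ q → 1.1488 ≤ Real.sqrt q := by
    intro q hq
    apply Real.le_sqrt_of_sq_le
    norm_num at hq ⊢
    linarith
  rcases le_total g3 g2 with c1 | c1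
  · rcases le_total g2 g1 with c2 | c2
    · -- g1 largest
      have h4 := KK_two' b2 b3 (by linarith) (by linarith) (by linarith)
      have h5 : 1.3199 ≤ b ^ 2 + c ^ 2 := by norm_num at h4 hs2 ⊢; linarith
      have t1 : Has Λ m 5.595 {y, z, w} := by
        refine Has.triple' hyz.ne hzw.ne hyw.ne my mz mw (fun h => ?_) (fun h => ?_)
        · rw [← hb, ← hcc] at h
          norm_num at h5; linarith
        · rw [← hb, ← hcc]
          have := root _ h5
          norm_num at this ⊢; linarith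
      have t2 : Has Λ m 1 {x} := by
        have := Has.single (Λ := Λ) (m := m) (S := {x}) (by simp [mx])
        simpa using this
      have hd : Disjoint ({x} : Finset ℝ) {y, z, w} := by
        rw [Finset.disjoint_singleton_left]; simp [hxy.ne, hxz.ne, hxw.ne]
      have t3 := t2.union hd t1
      refine t3.mono ?_
      norm_num
    · -- g2 largest
      have h4 := KK_two' b1 b3 (by linarith) (by linarith) (by linarith)
      have h5 : 1.3199 ≤ a ^ 2 + c ^ 2 := by norm_num at h4 hs2 ⊢; linarith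
      have t1 := Has.pair (Λ := Λ) hxy.ne mx my (t := a) (phi_abs hσ0 hΛ x y)
      have t2 := Has.pair (Λ := Λ) hzw.ne mz mw (t := c) (phi_abs hσ0 hΛ z w)
      have hd : Disjoint ({x, y} : Finset ℝ) {z, w} := by
        rw [Finset.disjoint_left]
        intro p hp hq
        simp only [Finset.mem_insert, Finset.mem_singleton] at hp hq
        rcases hp with rfl | rfl <;> rcases hq with hq | hq <;> linarith
      have t3 := t1.union hd t2
      have e1 : ({x, y} ∪ {z, w} : Finset ℝ) = {x, y, z, w} := by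
        ext p; simp only [Finset.mem_union, Finset.mem_insert, Finset.mem_singleton]; tauto
      rw [e1] at t3
      refine t3.mono ?_
      rw [← ha, ← hcc]
      norm_num at h5 ⊢
      nlinarith
  · rcases le_total g3 g1 with c2 | c2
    · -- g1 largest
      have h4 := KK_two' b2 b3 (by linarith) (by linarith) (by linarith)
      have h5 : 1.3199 ≤ b ^ 2 + c ^ 2 := by norm_num at h4 hs2 ⊢; linarith
      have t1 : Has Λ m 5.595 {y, z, w} := by
        refine Has.triple' hyz.ne hzw.ne hyw.ne my mz mw (fun h => ?_) (fun h => ?_)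
        · rw [← hb, ← hcc] at h
          norm_num at h5; linarith
        · rw [← hb, ← hcc]
          have := root _ h5
          norm_num at this ⊢; linarith
      have t2 : Has Λ m 1 {x} := by
        have := Has.single (Λ := Λ) (m := m) (S := {x}) (by simp [mx])
        simpa using this
      have hd : Disjoint ({x} : Finset ℝ) {y, z, w} := by
        rw [Finset.disjoint_singleton_left]; simp [hxy.ne, hxz.ne, hxw.ne]
      have t3 := t2.union hd t1
      refine t3.mono ?_
      norm_num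
    · -- g3 largest
      have h4 := KK_two' b1 b2 (by linarith) (by linarith) (by linarith)
      have h5 : 1.3199 ≤ a ^ 2 + b ^ 2 := by norm_num at h4 hs2 ⊢; linarith
      have t1 : Has Λ m 5.595 {x, y, z} := by
        refine Has.triple' hxy.ne hyz.ne hxz.ne mx my mz (fun h => ?_) (fun h => ?_)
        · rw [← ha, ← hb] at h
          norm_num at h5; linarith
        · rw [← ha, ← hb]
          have := root _ h5
          norm_num at this ⊢; linarith
      have t2 : Has Λ m 1 {w} := by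
        have := Has.single (Λ := Λ) (m := m) (S := {w}) (by simp [mw])
        simpa using this
      have hd : Disjoint ({x, y, z} : Finset ℝ) {w} := by
        rw [Finset.disjoint_singleton_right]; simp [hxw.ne', hyw.ne', hzw.ne']
      have t3 := t1.union hd t2
      have e1 : ({x, y, z} ∪ {w} : Finset ℝ) = {x, y, z, w} := by
        ext p; simp only [Finset.mem_union, Finset.mem_insert, Finset.mem_singleton]; tauto
      rw [e1] at t3
      refine t3.mono ?_
      norm_num

include hσ0 hθ0 hΛ in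
/-- two simple points and a double point in a cell -/
lemma Has.four' {m : ℝ → ℕ} (hs0 : 0 ≤ s) (hs1 : θ * (s / σ) ≤ 1) (hs2 : s ^ 2 ≤ 1 / 10 ^ 5)
    {x y z : ℝ} (hxy : x < y) (hxz : x ≠ z) (hyz : y ≠ z) (mx : m x = 1) (my : m y = 1)
    (mz : m z = 2) (h1 : y - x ≤ s) (h2 : |z - x| ≤ s) (h3 : |z - y| ≤ s) :
    Has Λ m 6.5 {x, y, z} := by
  classical
  have e : ∀ g : ℝ, θ * (g / σ) = θ / σ * g := by intro g; ring
  have hts : 0 < θ / σ := div_pos hθ0 hσ0
  rw [e] at hs1
  have hsq2 : 1.414 ≤ Real.sqrt 2 := by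
    apply Real.le_sqrt_of_sq_le; norm_num
  by_cases c1 : θ / σ * (y - x) ≤ 1 / 2
  · -- `x` and `y` are close
    have k1 : 0.659 ≤ (phi Λ ((x : ℂ) - y)).re := by
      refine phi_half hσ0 hθ0 hΛ (s := s) (by rw [abs_of_pos (by linarith)]; exact h1) hs2 ?_
      rw [e, abs_of_pos (by linarith)]; exact c1
    have t1 := Has.pair (Λ := Λ) hxy.ne mx my (phi_abs hσ0 hΛ x y)
    have t2 := Has.multiple (Λ := Λ) (m := m) {z}
    have hd : Disjoint ({x, y} : Finset ℝ) {z} := by
      rw [Finset.disjoint_singleton_right]; simp [hxz.symm, hyz.symm]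
    have t3 := t1.union hd t2
    have e1 : ({x, y} ∪ {z} : Finset ℝ) = {x, y, z} := by
      ext p; simp only [Finset.mem_union, Finset.mem_insert, Finset.mem_singleton]; tauto
    rw [e1] at t3
    refine t3.mono ?_
    rw [Finset.sum_singleton, mz]
    push_cast
    norm_num at k1 ⊢
    nlinarith
  · push Not at c1
    have hcl : θ * (|z - x| / σ) ≤ 1 / 2 ∨ θ * (|z - y| / σ) ≤ 1 / 2 := by
      rw [e, e]
      by_contra hcon
      push Not at hcon
      obtain ⟨d1, d2⟩ := hcon
      have e2 : ∀ u v : ℝ, θ / σ * (u - v) = θ / σ * u - θ / σ * v := fun u v => by ring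
      rw [e2] at c1
      rcases lt_trichotomy z x with hz | hz | hz
      · rw [abs_of_neg (by linarith), neg_sub, e2] at d1
        rw [abs_of_neg (by linarith), neg_sub] at h3
        have := mul_le_mul_of_nonneg_left h3 hts.le
        rw [e2] at this
        linarith
      · exact hxz hz.symm
      · rcases lt_trichotomy z y with hz' | hz' | hz'
        · rw [abs_of_pos (by linarith), e2] at d1
          rw [abs_of_neg (by linarith), neg_sub, e2] at d2
          have := mul_le_mul_of_nonneg_left h1 hts.le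
          rw [e2] at this
          linarith
        · exact hyz hz'.symm
        · rw [abs_of_pos (by linarith), e2] at d2
          rw [abs_of_pos (by linarith)] at h2
          have := mul_le_mul_of_nonneg_left h2 hts.le
          rw [e2] at this
          linarith
    rcases hcl with c2 | c2
    · have k1 : 0.659 ≤ (phi Λ ((x : ℂ) - z)).re :=
        phi_half hσ0 hθ0 hΛ (s := s) h2 hs2 c2
      have t1 := Has.pair12 (Λ := Λ) hxz mx mz
      have t2 : Has Λ m 1 {y} := by
        have := Has.single (Λ := Λ) (m := m) (S := {y}) (by simp [my])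
        simpa using this
      have hd : Disjoint ({x, z} : Finset ℝ) {y} := by
        rw [Finset.disjoint_singleton_right]; simp [hxy.ne', hyz]
      have t3 := t1.union hd t2
      have e1 : ({x, z} ∪ {y} : Finset ℝ) = {x, y, z} := by
        ext p; simp only [Finset.mem_union, Finset.mem_insert, Finset.mem_singleton]; tauto
      rw [e1] at t3
      refine t3.mono ?_
      norm_num at k1 hsq2 ⊢
      nlinarith
    · have k1 : 0.659 ≤ (phi Λ ((y : ℂ) - z)).re :=
        phi_half hσ0 hθ0 hΛ (s := s) h3 hs2 c2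
      have t1 := Has.pair12 (Λ := Λ) hyz my mz
      have t2 : Has Λ m 1 {x} := by
        have := Has.single (Λ := Λ) (m := m) (S := {x}) (by simp [mx])
        simpa using this
      have hd : Disjoint ({y, z} : Finset ℝ) {x} := by
        rw [Finset.disjoint_singleton_right]; simp [hxy.ne, hxz]
      have t3 := t1.union hd t2
      have e1 : ({y, z} ∪ {x} : Finset ℝ) = {x, y, z} := by
        ext p; simp only [Finset.mem_union, Finset.mem_insert, Finset.mem_singleton]; tauto
      rw [e1] at t3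
      refine t3.mono ?_
      norm_num at k1 hsq2 ⊢
      nlinarith

include hσ0 hθ0 hΛ in
/-- **the value of a cell** -/
theorem Has.cell {m : ℝ → ℕ} (hs0 : 0 ≤ s) (hs1 : θ * (s / σ) ≤ 1)
    (hs1' : 1.6 * (θ * (s / σ)) + s ^ 2 / 4 ≤ 1.6) (hs2 : s ^ 2 ≤ 1 / 10 ^ 5)
    {S : Finset ℝ} (hm : ∀ x ∈ S, 1 ≤ m x) (hS : ∀ x ∈ S, ∀ y ∈ S, y - x ≤ s) :
    Has Λ m (2 * ((∑ x ∈ S, m x : ℕ) : ℝ) - vv (∑ x ∈ S, m x)) S := by
  classical
  set S1 := S.filter (fun x => m x = 1) with hS1
  set S2 := S.filter (fun x => ¬ m x = 1) with hS2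
  have hun : S1 ∪ S2 = S := Finset.filter_union_filter_not_eq _ S
  have hd : Disjoint S1 S2 := Finset.disjoint_filter_filter_not _ _ _
  have hm1 : ∀ x ∈ S1, m x = 1 := fun x hx => (Finset.mem_filter.mp hx).2
  have hm2 : ∀ x ∈ S2, 2 ≤ m x := by
    intro x hx
    have h1 := (Finset.mem_filter.mp hx)
    have := hm x h1.1
    have := h1.2
    omega
  obtain ⟨M, hM⟩ : ∃ M, M = ∑ x ∈ S2, m x := ⟨_, rfl⟩
  have hn : ∑ x ∈ S, m x = S1.card + M := by
    rw [← hun, Finset.sum_union hd, hM, Finset.sum_congr rfl hm1]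
    simp
  have ht : 2 * S2.card ≤ M := by
    rw [hM, Finset.card_eq_sum_ones, Finset.mul_sum]
    exact Finset.sum_le_sum fun x hx => by simpa using hm2 x hx
  have hval : ∑ x ∈ S2, (4 * (m x : ℝ) - 4) = 4 * (M : ℝ) - 4 * (S2.card : ℝ) := by
    rw [Finset.sum_sub_distrib, ← Finset.mul_sum, hM, Finset.sum_const, nsmul_eq_mul]
    push_cast
    ring
  have hmul := Has.multiple (Λ := Λ) (m := m) S2
  rw [hval] at hmul
  have htr : 2 * (S2.card : ℝ) ≤ (M : ℝ) := by exact_mod_cast ht
  -- general bound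
  have gen : Has Λ m (2 * ((∑ x ∈ S, m x : ℕ) : ℝ) - 2) S := by
    have h1 := Has.of_cost hm1 (block_cost hσ0 hθ0 hΛ hs0 hs1' (S := S1) (fun x hx y hy =>
      hS x (Finset.mem_filter.mp hx).1 y (Finset.mem_filter.mp hy).1))
    have h2 := h1.union hd hmul
    rw [hun] at h2
    refine h2.mono ?_
    rw [hn]
    push_cast
    linarith
  -- basic bound
  have bas : Has Λ m ((S1.card : ℝ) + (4 * (M : ℝ) - 4 * (S2.card : ℝ))) S := by
    have h2 := (Has.single (Λ := Λ) hm1).union hd hmul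
    rw [hun] at h2
    exact h2
  set n := ∑ x ∈ S, m x with hn0
  by_cases n0 : n = 0
  · refine bas.mono ?_
    have : S1.card = 0 ∧ M = 0 := by omega
    have h2 : S2.card = 0 := by omega
    rw [n0, this.1, this.2, h2]
    unfold vv
    simp
  by_cases n1 : n = 1
  · refine bas.mono ?_
    have h2 : S2.card = 0 := by omega
    have : S1.card = 1 ∧ M = 0 := by
      have : S2 = ∅ := Finset.card_eq_zero.mp h2
      have : M = 0 := by rw [hM, this]; simp
      omega
    rw [n1, this.1, this.2, h2]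
    unfold vv
    norm_num
  by_cases n3 : n = 3
  · have e : 2 * ((n : ℕ) : ℝ) - vv n = 4.7425 := by rw [n3]; unfold vv; norm_num
    rw [e]
    by_cases hM0 : S2 = ∅
    · have hM1 : M = 0 := by rw [hM, hM0]; simp
      have hSS : S1 = S := by rw [← hun, hM0, Finset.union_empty]
      rw [← hSS]
      exact Has.three hσ0 hθ0 hΛ hs0 hs1 hs2 hm1 (fun x hx y hy =>
        hS x (Finset.mem_filter.mp hx).1 y (Finset.mem_filter.mp hy).1) (by omega)
    · refine bas.mono ?_
      have h1 : 1 ≤ S2.card := Finset.card_pos.mpr (Finset.nonempty_iff_ne_empty.mpr hM0)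
      have h2 : S2.card = 1 := by omega
      have h3 : 2 ≤ M := by omega
      have h4 : (S1.card : ℝ) = 3 - M := by
        have : S1.card + M = 3 := by omega
        have : (S1.card : ℝ) + M = 3 := by exact_mod_cast this
        linarith
      have h5 : (2 : ℝ) ≤ M := by exact_mod_cast h3
      rw [h2, h4]
      norm_num
      linarith
  by_cases n4 : n = 4
  · have e : 2 * ((n : ℕ) : ℝ) - vv n = 6.5 := by rw [n4]; unfold vv; norm_num
    rw [e]
    by_cases hM0 : S2 = ∅
    · have hM1 : M = 0 := by rw [hM, hM0]; simp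
      have hSS : S1 = S := by rw [← hun, hM0, Finset.union_empty]
      rw [← hSS]
      exact Has.four hσ0 hθ0 hΛ hs0 hs1 hs2 hm1 (fun x hx y hy =>
        hS x (Finset.mem_filter.mp hx).1 y (Finset.mem_filter.mp hy).1) (by omega)
    · have h1 : 1 ≤ S2.card := Finset.card_pos.mpr (Finset.nonempty_iff_ne_empty.mpr hM0)
      by_cases hM2 : M = 2
      · have h2 : S2.card = 1 := by omega
        have h3 : S1.card = 2 := by omega
        obtain ⟨z, hz⟩ := Finset.card_eq_one.mp h2
        obtain ⟨x, y, hxy, hxyS⟩ := Finset.card_eq_two.mp h3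
        have hz2 : z ∈ S2 := by rw [hz]; simp
        have hx1 : x ∈ S1 := by rw [hxyS]; simp
        have hy1 : y ∈ S1 := by rw [hxyS]; simp
        have hzS := (Finset.mem_filter.mp hz2).1
        have hxS := (Finset.mem_filter.mp hx1).1
        have hyS := (Finset.mem_filter.mp hy1).1
        have mz : m z = 2 := by
          have : M = m z := by rw [hM, hz]; simp
          omega
        have hxz : x ≠ z := fun h => Finset.disjoint_left.mp hd hx1 (h ▸ hz2)
        have hyz : y ≠ z := fun h => Finset.disjoint_left.mp hd hy1 (h ▸ hz2)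
        have hab : ∀ p ∈ S, ∀ q ∈ S, |p - q| ≤ s := by
          intro p hp q hq
          rw [abs_le]
          have a1 := hS p hp q hq
          have a2 := hS q hq p hp
          constructor <;> linarith
        rcases lt_or_gt_of_ne hxy with h | h
        · have t := Has.four' hσ0 hθ0 hΛ hs0 hs1 hs2 h hxz hyz (hm1 x hx1) (hm1 y hy1) mz
            (hS x hxS y hyS) (hab z hzS x hxS) (hab z hzS y hyS)
          have e1 : S = {x, y, z} := by
            rw [← hun, hxyS, hz]
            ext p; simp only [Finset.mem_union, Finset.mem_insert, Finset.mem_singleton]; tauto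
          rw [e1]; exact t
        · have t := Has.four' hσ0 hθ0 hΛ hs0 hs1 hs2 h hyz hxz (hm1 y hy1) (hm1 x hx1) mz
            (hS y hyS x hxS) (hab z hzS y hyS) (hab z hzS x hxS)
          have e1 : S = {y, x, z} := by
            rw [← hun, hxyS, hz]
            ext p; simp only [Finset.mem_union, Finset.mem_insert, Finset.mem_singleton]; tauto
          rw [e1]; exact t
      · refine bas.mono ?_
        have h3 : 3 ≤ M := by omega
        have h4 : (S1.card : ℝ) = 4 - M := by
          have : S1.card + M = 4 := by omega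
          have : (S1.card : ℝ) + M = 4 := by exact_mod_cast this
          linarith
        rw [h4]
        have h5 : (3 : ℝ) ≤ M := by exact_mod_cast h3
        rcases Nat.lt_or_ge S2.card 2 with c | c
        · have : S2.card = 1 := by omega
          rw [this]; norm_num; linarith
        · have : S2.card = 2 ∧ M = 4 := by omega
          rw [this.1, this.2]; norm_num
  · refine gen.mono ?_
    unfold vv
    rw [if_neg n0, if_neg n1, if_neg n3, if_neg n4]

end

end Pool.Agent.Helper647.GL
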