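import Pool.Agent.Helper647_GL.Short

/-! Gram points and the number of critical zeros in Gram intervals. -/

open Complex Filter Topology Set MeasureTheory
open scoped BigOperators ComplexConjugate

namespace Pool.Agent.Helper647.GL

open H370 Pool.Agent.W201 Pool.Agent.R304.GR

/-- Gram points -/
noncomputable def gp (n : ℕ) : ℝ := sInf {t : ℝ | 7 < t ∧ vt t = n * Real.pi}

/-- there is `T1` from which on `vt` grows -/
lemma vt_tendsto : Tendsto vt atTop atTop := by
  obtain ⟨T1, hT1, h⟩ := vt_grow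
  have h1 : Tendsto (fun y : ℝ => (y - T1) / 2 + vt T1) atTop atTop := by
    apply Filter.tendsto_atTop_add_const_right
    apply Filter.Tendsto.atTop_div_const (by norm_num)
    exact Filter.tendsto_atTop_add_const_right _ _ tendsto_id
  refine tendsto_atTop_mono' _ ?_ h1
  filter_upwards [eventually_ge_atTop T1] with y hy
  have := h T1 y le_rfl hy
  linarith

theorem gp_spec (B : ℝ) : ∃ n0 : ℕ, ∀ n : ℕ, n0 ≤ n → B ≤ gp n ∧ 7 < gp n ∧
    vt (gp n) = n * Real.pi ∧ ∀ u, 7 < u → vt u = n * Real.pi → u = gp n := by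
  obtain ⟨T1, hT1, h⟩ := vt_grow
  set B' : ℝ := max B (max T1 8) with hB'
  have hB1 : B ≤ B' := le_max_left _ _
  have hB2 : T1 ≤ B' := (le_max_left _ _).trans (le_max_right _ _)
  have hB3 : 8 ≤ B' := (le_max_right _ _).trans (le_max_right _ _)
  obtain ⟨K, hK⟩ := (isCompact_Icc (a := (0 : ℝ)) (b := B')).exists_bound_of_continuousOn
    vt_cont.continuousOn
  obtain ⟨n0, hn0⟩ := exists_nat_gt K
  refine ⟨n0, fun n hn => ?_⟩
  have hpi := Real.pi_gt_three
  have hKn : K < n * Real.pi := by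
    have h1 : (n0 : ℝ) ≤ n := by exact_mod_cast hn
    have h2 : (0 : ℝ) ≤ n := Nat.cast_nonneg n
    nlinarith
  have hbig : ∀ u, 7 < u → vt u = n * Real.pi → B' < u := by
    intro u hu hvu
    by_contra hc
    have := hK u ⟨by linarith, by linarith [not_lt.mp hc]⟩
    rw [Real.norm_eq_abs] at this
    have := le_abs_self (vt u)
    linarith
  obtain ⟨Y, hY⟩ := (vt_tendsto.eventually_ge_atTop (n * Real.pi)).exists_forall_of_atTop
  have hKB := hK B' ⟨by linarith, le_rfl⟩
  rw [Real.norm_eq_abs] at hKB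
  have hvB : vt B' ≤ n * Real.pi := by
    have := le_abs_self (vt B')
    linarith
  obtain ⟨t, ht, hvt⟩ := intermediate_value_Icc (le_max_left B' Y) vt_cont.continuousOn
    ⟨hvB, hY _ (le_max_right _ _)⟩
  have hset : {u : ℝ | 7 < u ∧ vt u = n * Real.pi} = {t} := by
    ext u
    simp only [Set.mem_ofPred_eq, Set.mem_singleton_iff]
    constructor
    · rintro ⟨h1, h2⟩
      have h3 := hbig u h1 h2
      rcases lt_trichotomy u t with hl | hl | hl
      · have := h u t (by linarith) hl.le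
        linarith
      · exact hl
      · have := h t u (by linarith [ht.1]) hl.le
        linarith
    · rintro rfl
      exact ⟨by linarith [ht.1], hvt⟩
  have hg : gp n = t := by
    unfold gp
    rw [hset, csInf_singleton]
  rw [hg]
  refine ⟨by linarith [ht.1], by linarith [ht.1], hvt, fun u h1 h2 => ?_⟩
  have : u ∈ {u : ℝ | 7 < u ∧ vt u = n * Real.pi} := ⟨h1, h2⟩
  rw [hset] at this
  exact this

/-- the data about Gram points used below -/
theorem gp_data (B : ℝ) : ∃ T1 : ℝ, B ≤ T1 ∧ 1 ≤ T1 ∧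
    (∀ x y : ℝ, T1 ≤ x → x ≤ y → (y - x) / 2 ≤ vt y - vt x) ∧
    ∃ n0 : ℕ, ∀ n : ℕ, n0 ≤ n → T1 ≤ gp n ∧ 7 < gp n ∧ vt (gp n) = n * Real.pi ∧
      (∀ u, 7 < u → vt u = n * Real.pi → u = gp n) ∧
      ∀ t : ℝ, (gp n ≤ t ∧ t < gp (n + 1)) ↔ (T1 ≤ t ∧ gf t = n) := by
  obtain ⟨T0, hT0, h⟩ := vt_grow
  set T1 : ℝ := max B T0 with hT1
  have h01 : T0 ≤ T1 := le_max_right _ _
  obtain ⟨n0, hn0⟩ := gp_spec T1
  refine ⟨T1, le_max_left _ _, hT0.trans h01, fun x y hx hxy => h x y (h01.trans hx) hxy, n0,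
    fun n hn => ?_⟩
  obtain ⟨h1, h2, h3, h4⟩ := hn0 n hn
  obtain ⟨k1, k2, k3, k4⟩ := hn0 (n + 1) (by omega)
  refine ⟨h1, h2, h3, h4, fun t => ?_⟩
  rw [gf_iff]
  push_cast at k3 ⊢
  constructor
  · rintro ⟨ha, hb⟩
    have hta : T1 ≤ t := h1.trans ha
    refine ⟨hta, ?_, ?_⟩
    · have := h (gp n) t (by linarith) ha
      linarith
    · have := h t (gp (n + 1)) (by linarith) hb.le
      linarith
  · rintro ⟨ht, ha, hb⟩
    constructor
    · by_contra hc
      have := h t (gp n) (by linarith) (not_le.mp hc).le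
      linarith [not_le.mp hc]
    · by_contra hc
      have := h (gp (n + 1)) t (by linarith) (not_lt.mp hc)
      linarith [not_lt.mp hc]

/-- the number of critical zeros of `F` in the `j`-th Gram interval, with multiplicity -/
noncomputable def cz (F : ℂ → ℂ) (j : ℕ) : ℕ :=
  ∑ᶠ t ∈ {t : ℝ | gp j ≤ t ∧ t < gp (j + 1) ∧ F (1 / 2 + I * t) = 0}, mo F t

section

variable {F : ℂ → ℂ} (hF : GoodL F)

include hF in
/-- the count by means of the finite sets `CF` -/
lemma cz_eq {j : ℕ} {U1 U2 : ℝ} (hU : 1 ≤ U1) (P : ℝ → Prop)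
    [DecidablePred P] (hP : ∀ t, (gp j ≤ t ∧ t < gp (j + 1)) → U1 < t ∧ t ≤ U2)
    (hP2 : ∀ t ∈ CF F U1 U2, (gp j ≤ t ∧ t < gp (j + 1)) ↔ P t) :
    cz F j = ∑ x ∈ (CF F U1 U2).filter P, mo F x := by
  unfold cz
  have hset : {t : ℝ | gp j ≤ t ∧ t < gp (j + 1) ∧ F (1 / 2 + I * t) = 0} =
      (((CF F U1 U2).filter P : Finset ℝ) : Set ℝ) := by
    ext t
    simp only [Set.mem_ofPred_eq, Finset.coe_filter]
    have him : (1 / 2 + I * (t : ℂ)).im = t := by simp
    have hre : (1 / 2 + I * (t : ℂ)).re = 1 / 2 := by simp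
    constructor
    · rintro ⟨h1, h2, h3⟩
      have h4 := hP t ⟨h1, h2⟩
      have h5 : t ∈ CF F U1 U2 := by
        rw [mem_CF, mem_Zf hF hU]
        refine ⟨by rw [hre]; norm_num, by rw [hre]; norm_num, by rw [him]; exact h4.1,
          by rw [him]; exact h4.2, h3⟩
      exact ⟨h5, (hP2 t h5).mp ⟨h1, h2⟩⟩
    · rintro ⟨h1, h2⟩
      have h3 := (hP2 t h1).mpr h2
      rw [mem_CF, mem_Zf hF hU] at h1
      exact ⟨h3.1, h3.2, h1.2.2.2.2⟩
  rw [hset, finsum_mem_coe_finset]

/-- sums of `vv` over Gram intervals -/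
noncomputable def VV (F : ℂ → ℂ) (J : ℕ) : ℝ := ∑ j ∈ Finset.range J, vv (cz F j)

lemma VV_mono {J K : ℕ} (h : J ≤ K) : VV F J ≤ VV F K := by
  unfold VV
  exact Finset.sum_le_sum_of_subset_of_nonneg (Finset.range_mono h) fun i _ _ => vv_nonneg _

lemma VV_Ico {J K : ℕ} (h : J ≤ K) : VV F K = VV F J + ∑ j ∈ Finset.Ico J K, vv (cz F j) := by
  unfold VV
  rw [Finset.sum_range_add_sum_Ico _ h]

include hF in
/-- **the sum of `vv` over the first Gram intervals** -/
theorem VV_long {c : ℝ} (hc0 : 0 ≤ c) (hc : c < 2 - 1.327503) :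
    ∃ b X0 : ℝ, 10 ≤ X0 ∧ ∀ X : ℝ, X0 ≤ X →
      c * (X * Real.log X / (2 * Real.pi)) - b * X ≤ VV F (gf X).toNat := by
  classical
  obtain ⟨d, hd0, hd1, T0, hT0, hshort⟩ := gram_profile_short hF hc0 hc
  obtain ⟨C, hC, hcnt⟩ := H965SI.countShort F hF
  obtain ⟨T1, -, hT1, hmono, n0, hgp⟩ := gp_data 1
  have hlogsmall : ∀ᶠ T : ℝ in atTop, (Real.log T) ^ 2 ≤ T := by
    have h := (isLittleO_log_rpow_atTop (show (0 : ℝ) < 1 / 2 by norm_num)).bound one_pos
    filter_upwards [h, eventually_ge_atTop (1 : ℝ)] with T hT hT1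
    have hTpos : 0 < T := by linarith
    rw [one_mul, Real.norm_eq_abs, Real.norm_eq_abs, abs_of_nonneg (Real.log_nonneg hT1),
      abs_of_nonneg (Real.rpow_nonneg hTpos.le _)] at hT
    have h2 := pow_le_pow_left₀ (Real.log_nonneg hT1) hT 2
    refine h2.trans (le_of_eq ?_)
    rw [← Real.rpow_natCast, ← Real.rpow_mul hTpos.le]
    norm_num
  obtain ⟨T4, hT4⟩ := hlogsmall.exists_forall_of_atTop
  obtain ⟨T5, hT5⟩ := (vt_tendsto.eventually_ge_atTop (n0 * Real.pi)).exists_forall_of_atTop
  set X0 : ℝ := max (max T0 T1) (max (max T4 T5) 10) with hX0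
  have hX00 : T0 ≤ X0 := (le_max_left _ _).trans (le_max_left _ _)
  have hX01 : T1 ≤ X0 := (le_max_right _ _).trans (le_max_left _ _)
  have hX04 : T4 ≤ X0 := ((le_max_left _ _).trans (le_max_left _ _)).trans (le_max_right _ _)
  have hX05 : T5 ≤ X0 := ((le_max_right _ _).trans (le_max_left _ _)).trans (le_max_right _ _)
  have hX010 : 10 ≤ X0 := (le_max_right _ _).trans (le_max_right _ _)
  have hpi := Real.pi_pos
  have hgm : ∀ x y : ℝ, T1 ≤ x → x ≤ y → gf x ≤ gf y := by
    intro x y hx hxy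
    have := hmono x y hx hxy
    exact Int.floor_mono (div_le_div_of_nonneg_right (by linarith) hpi.le)
  have hgn : ∀ x : ℝ, X0 ≤ x → (n0 : ℤ) ≤ gf x := by
    intro x hx
    unfold gf
    rw [Int.le_floor, le_div_iff₀ hpi]
    exact_mod_cast hT5 x (hX05.trans hx)
  -- the step
  have step : ∀ X : ℝ, X0 ≤ X → VV F (gf X).toNat + c * (NN F X (X + X) : ℝ) - 4 ≤
      VV F (gf (X + X)).toNat := by
    intro X hX
    have hX10 : 10 ≤ X := hX010.trans hX
    obtain ⟨U1, U2, hU1, hU1', hU2, hU2', hsum⟩ := hshort X (hX00.trans hX) X (by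
      calc X ^ (1 - d) ≤ X ^ (1 : ℝ) :=
            Real.rpow_le_rpow_of_exponent_le (by linarith) (by linarith)
        _ = X := Real.rpow_one X) le_rfl
    have hU : 1 ≤ U1 := by linarith
    have hTX : T1 ≤ X := hX01.trans hX
    have g1 : gf X ≤ gf U1 := hgm X U1 hTX hU1
    have g2 : gf U1 ≤ gf U2 := hgm U1 U2 (by linarith) (by linarith)
    have g3 : gf U2 ≤ gf (X + X) := hgm U2 (X + X) (by linarith) hU2'
    have g0 := hgn X hX
    have hIm : ∀ i ∈ (CF F U1 U2).image gf, gf U1 ≤ i ∧ i ≤ gf U2 := by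
      intro i hi
      rw [Finset.mem_image] at hi
      obtain ⟨x, hx, rfl⟩ := hi
      have h1 := CF_mem hF hU hx
      exact ⟨hgm U1 x (by linarith) h1.1.le, hgm x U2 (by linarith [h1.1]) h1.2⟩
    -- the inner labels
    have hinner : ∀ i : ℤ, gf U1 < i → i < gf U2 → cnt F U1 U2 gf i = cz F i.toNat := by
      intro i h1 h2
      have hi0 : (n0 : ℤ) ≤ i := by omega
      have hin : ((i.toNat : ℕ) : ℤ) = i := Int.toNat_of_nonneg (by omega)
      have hgi := (hgp i.toNat (by omega)).2.2.2.2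
      rw [hin] at hgi
      unfold cnt
      symm
      refine cz_eq hF hU (fun x => gf x = i) (fun t ht => ?_) (fun t ht => ?_)
      · have h3 := (hgi t).mp ht
        constructor
        · by_contra hc'
          have := hgm t U1 h3.1 (not_lt.mp hc')
          omega
        · by_contra hc'
          have := hgm U2 t (by linarith) (not_le.mp hc').le
          omega
      · have h3 := CF_mem hF hU ht
        rw [hgi t]
        constructor
        · exact fun h => h.2
        · exact fun h => ⟨by linarith [h3.1], h⟩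
    have hsplit : ∑ i ∈ (CF F U1 U2).image gf, vv (cnt F U1 U2 gf i) ≤
        4 + ∑ j ∈ Finset.Ico (gf X).toNat (gf (X + X)).toNat, vv (cz F j) := by
      set S := (CF F U1 U2).image gf with hS
      have e1 := Finset.sum_filter_add_sum_filter_not S (fun i => gf U1 < i ∧ i < gf U2)
        (fun i => vv (cnt F U1 U2 gf i))
      have e2 : ∑ i ∈ S.filter (fun i => ¬ (gf U1 < i ∧ i < gf U2)), vv (cnt F U1 U2 gf i) ≤
          4 := by
        have hsub : S.filter (fun i => ¬ (gf U1 < i ∧ i < gf U2)) ⊆ {gf U1, gf U2} := by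
          intro i hi
          rw [Finset.mem_filter] at hi
          have := hIm i hi.1
          rw [Finset.mem_insert, Finset.mem_singleton]
          omega
        have h1 := Finset.card_le_card hsub
        have h2 : ({gf U1, gf U2} : Finset ℤ).card ≤ 2 := Finset.card_le_two
        have h3 : ∑ i ∈ S.filter (fun i => ¬ (gf U1 < i ∧ i < gf U2)), vv (cnt F U1 U2 gf i) ≤
            ∑ i ∈ S.filter (fun i => ¬ (gf U1 < i ∧ i < gf U2)), (2 : ℝ) :=
          Finset.sum_le_sum fun i _ => vv_le _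
        rw [Finset.sum_const, nsmul_eq_mul] at h3
        have h4 : ((S.filter (fun i => ¬ (gf U1 < i ∧ i < gf U2))).card : ℝ) ≤ 2 := by
          exact_mod_cast h1.trans h2
        linarith
      have e3 : ∑ i ∈ S.filter (fun i => gf U1 < i ∧ i < gf U2), vv (cnt F U1 U2 gf i) ≤
          ∑ j ∈ Finset.Ico (gf X).toNat (gf (X + X)).toNat, vv (cz F j) := by
        have h1 : ∑ i ∈ S.filter (fun i => gf U1 < i ∧ i < gf U2), vv (cnt F U1 U2 gf i) =
            ∑ i ∈ S.filter (fun i => gf U1 < i ∧ i < gf U2), vv (cz F i.toNat) := by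
          refine Finset.sum_congr rfl fun i hi => ?_
          rw [Finset.mem_filter] at hi
          rw [hinner i hi.2.1 hi.2.2]
        have h2 : ∑ i ∈ S.filter (fun i => gf U1 < i ∧ i < gf U2), vv (cz F i.toNat) =
            ∑ j ∈ (S.filter (fun i => gf U1 < i ∧ i < gf U2)).image Int.toNat, vv (cz F j) := by
          rw [Finset.sum_image]
          intro i hi i' hi' h
          simp only [Finset.coe_filter, Set.mem_ofPred_eq] at hi hi'
          have h := (h : i.toNat = i'.toNat)
          omega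
        rw [h1, h2]
        apply Finset.sum_le_sum_of_subset_of_nonneg
        · intro j hj
          rw [Finset.mem_image] at hj
          obtain ⟨i, hi, rfl⟩ := hj
          rw [Finset.mem_filter] at hi
          rw [Finset.mem_Ico]
          omega
        · intro i _ _
          exact vv_nonneg _
      linarith
    have e4 := VV_Ico (F := F) (show (gf X).toNat ≤ (gf (X + X)).toNat by omega)
    linarith
  -- the number of zeros
  have cnt : ∀ X : ℝ, X0 ≤ X → X * Real.log X / (2 * Real.pi) - 2 * C * X ≤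
      (NN F X (X + X) : ℝ) := by
    intro X hX
    have hX10 : 10 ≤ X := hX010.trans hX
    have h1 := (abs_le.mp (hcnt X hX10 X (by linarith) le_rfl X (X + X) le_rfl (by linarith)
      (by linarith) le_rfl).1).1
    have h2 := hT4 X (hX04.trans hX)
    have h3 : C * (X + (Real.log X) ^ 2) ≤ C * (X + X) := by gcongr
    linarith
  have hlog2 : Real.log 2 ≤ 1 := by linarith [Real.log_two_lt_d9]
  -- the claim
  set b : ℝ := c * (Real.log (X0 + X0)) / (2 * Real.pi) + 2 * (c * (2 * C + 1) + 1) with hb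
  have hlogX0 : 0 ≤ Real.log (X0 + X0) := Real.log_nonneg (by linarith)
  have hb1 : c * (Real.log (X0 + X0)) / (2 * Real.pi) ≤ b := by
    rw [hb]
    have : 0 ≤ 2 * (c * (2 * C + 1) + 1) := by positivity
    linarith
  have hb2 : 2 * (c * (2 * C + 1) + 1) ≤ b := by
    rw [hb]
    have : 0 ≤ c * (Real.log (X0 + X0)) / (2 * Real.pi) := by positivity
    linarith
  have hVnn : ∀ J, 0 ≤ VV F J := fun J => Finset.sum_nonneg fun j _ => vv_nonneg _
  have main : ∀ k : ℕ, ∀ X : ℝ, X0 ≤ X → X ≤ 2 ^ k * (X0 + X0) →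
      c * (X * Real.log X / (2 * Real.pi)) - b * X ≤ VV F (gf X).toNat := by
    intro k
    induction k with
    | zero =>
      intro X hX1 hX2
      rw [pow_zero, one_mul] at hX2
      have hX0 : 0 < X := by linarith
      have h1 : Real.log X ≤ Real.log (X0 + X0) := Real.log_le_log hX0 hX2
      have h2 : c * (X * Real.log X / (2 * Real.pi)) - b * X ≤ 0 := by
        have h3 : c * (X * Real.log X / (2 * Real.pi)) =
            c * Real.log X / (2 * Real.pi) * X := by ring
        rw [h3]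
        have h4 : c * Real.log X / (2 * Real.pi) ≤ c * (Real.log (X0 + X0)) / (2 * Real.pi) := by
          gcongr
        have h5 : c * Real.log X / (2 * Real.pi) * X ≤ b * X :=
          mul_le_mul_of_nonneg_right (h4.trans hb1) hX0.le
        linarith
      exact h2.trans (hVnn _)
    | succ k ih =>
      intro X hX1 hX2
      rcases le_or_gt X (2 ^ k * (X0 + X0)) with h | h
      · exact ih X hX1 h
      · have hXX : X0 + X0 ≤ X := by
          have : (1 : ℝ) ≤ 2 ^ k := one_le_pow₀ (by norm_num)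
          nlinarith
        have hY1 : X0 ≤ X / 2 := by linarith
        have hY2 : X / 2 ≤ 2 ^ k * (X0 + X0) := by
          rw [pow_succ] at hX2
          linarith
        have h1 := ih (X / 2) hY1 hY2
        have h2 := step (X / 2) hY1
        have h3 := cnt (X / 2) hY1
        have e : X / 2 + X / 2 = X := by ring
        rw [e] at h2 h3
        have hX0' : 0 < X := by linarith
        have hlog : Real.log (X / 2) = Real.log X - Real.log 2 :=
          Real.log_div hX0'.ne' (by norm_num)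
        rw [hlog] at h1 h3
        have h4 := mul_le_mul_of_nonneg_left h3 hc0
        have h5 : c * (X / 2 * (Real.log X - Real.log 2) / (2 * Real.pi)) =
            c * (X * Real.log X / (2 * Real.pi)) / 2 -
              c * (X / 2) * (Real.log 2 / (2 * Real.pi)) := by ring
        have h6 : Real.log 2 / (2 * Real.pi) ≤ 1 / 2 := by
          rw [div_le_div_iff₀ (by positivity) (by norm_num)]
          have := Real.pi_gt_three
          linarith
        have h7 : c * (X / 2) * (Real.log 2 / (2 * Real.pi)) ≤ c * (X / 2) * (1 / 2) := by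
          gcongr
        have h8 : c * (X / 2 * (Real.log X - Real.log 2) / (2 * Real.pi) - 2 * C * (X / 2)) =
            c * (X / 2 * (Real.log X - Real.log 2) / (2 * Real.pi)) - c * C * X := by ring
        rw [h8] at h4
        have h9 : 2 * (c * (2 * C + 1) + 1) * X ≤ b * X :=
          mul_le_mul_of_nonneg_right hb2 hX0'.le
        have h10 : 0 ≤ c * C * X := by positivity
        have h11 : 0 ≤ c * X := by positivity
        nlinarith
  refine ⟨b, X0, hX010, fun X hX => ?_⟩
  obtain ⟨k, hk⟩ := pow_unbounded_of_one_lt X (one_lt_two : (1 : ℝ) < 2)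
  refine main k X hX (hk.le.trans ?_)
  have : (0 : ℝ) < 2 ^ k := by positivity
  nlinarith

include hF in
/-- the sum of `vv` over the first `M` Gram intervals -/
theorem VV_main {c : ℝ} (hc0 : 0 ≤ c) (hc : c < 2 - 1.327503) :
    ∃ M0 : ℕ, ∀ M : ℕ, M0 ≤ M → c * M ≤ VV F M := by
  obtain ⟨b, X0, hX0, h⟩ := VV_long hF (c := (c + (2 - 1.327503)) / 2) (by norm_num at hc ⊢; linarith)
    (by linarith)
  obtain ⟨X1, hX1⟩ := gram_total (c := (c + (2 - 1.327503)) / 2) (c' := c) (b := b) hc0 (by linarith)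
  obtain ⟨n0, hn0⟩ := gp_spec (max X0 X1)
  refine ⟨n0, fun M hM => ?_⟩
  obtain ⟨h1, h2, h3, h4⟩ := hn0 M hM
  have h5 := h (gp M) ((le_max_left _ _).trans h1)
  have h6 := hX1 (gp M) ((le_max_right _ _).trans h1)
  have hpi := Real.pi_pos
  have h7 : vt (gp M) / Real.pi = M := by rw [h3]; field_simp
  have h8 : gf (gp M) = M := by
    unfold gf; rw [h7]; exact Int.floor_natCast M
  rw [h7] at h6
  rw [h8, Int.toNat_natCast] at h5
  linarith

end

end Pool.Agent.Helper647.GL
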