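import Pool.Agent.Helper647_GL.Tr
import Pool.Agent.R304.GR.Ker
import Pool.Agent.Helper131.Slab.Trig

/-! Values of test matrices on finite sets of ordinates with multiplicities. -/

open Complex Filter Topology Set MeasureTheory
open scoped BigOperators ComplexConjugate

namespace Pool.Agent.Helper647.GL

open H370 Pool.Agent.W201 Pool.Agent.R304.GR

/-- the value of the test matrix `Y` -/
noncomputable def Val (Λ : ℝ) (m : ℝ → ℕ) (S : Finset ℝ) (Y : ℝ → ℝ → ℝ) : ℝ :=
  2 * ∑ x ∈ S, ∑ y ∈ S, Y x y * (Real.sqrt (m x) * Real.sqrt (m y) * (phi Λ ((x : ℂ) - y)).re)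
    - ∑ x ∈ S, ∑ y ∈ S, (Y x y) ^ 2

/-- there is an admissible test matrix of value at least `q` -/
def Has (Λ : ℝ) (m : ℝ → ℕ) (q : ℝ) (S : Finset ℝ) : Prop := ∃ Y : ℝ → ℝ → ℝ,
  (∀ v : ℝ → ℂ, ∑ x ∈ S, ∑ y ∈ S, Y x y * (conj (v x) * v y).re ≤ 2 * ∑ x ∈ S, ‖v x‖ ^ 2) ∧
    q ≤ Val Λ m S Y

lemma Has.mono {Λ q q' : ℝ} {m : ℝ → ℕ} {S : Finset ℝ} (h : Has Λ m q S) (hq : q' ≤ q) :
    Has Λ m q' S := by
  obtain ⟨Y, h1, h2⟩ := h
  exact ⟨Y, h1, hq.trans h2⟩

lemma blk (A B : Finset ℝ) (hd : Disjoint A B) (a b : ℝ → ℝ → ℝ) (f : ℝ → ℝ → ℝ)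
    (hfa : ∀ x ∈ A, ∀ y ∈ A, f x y = a x y) (hfb : ∀ x ∈ B, ∀ y ∈ B, f x y = b x y)
    (h1 : ∀ x ∈ A, ∀ y ∈ B, f x y = 0) (h2 : ∀ x ∈ B, ∀ y ∈ A, f x y = 0) :
    ∑ x ∈ A ∪ B, ∑ y ∈ A ∪ B, f x y = ∑ x ∈ A, ∑ y ∈ A, a x y + ∑ x ∈ B, ∑ y ∈ B, b x y := by
  rw [Finset.sum_union hd]
  congr 1
  · refine Finset.sum_congr rfl fun x hx => ?_
    rw [Finset.sum_union hd, Finset.sum_congr rfl fun y hy => hfa x hx y hy,
      Finset.sum_eq_zero fun y hy => h1 x hx y hy, add_zero]
  · refine Finset.sum_congr rfl fun x hx => ?_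
    rw [Finset.sum_union hd, Finset.sum_congr rfl fun y hy => hfb x hx y hy,
      Finset.sum_eq_zero fun y hy => h2 x hx y hy, zero_add]

lemma Has.union {Λ a b : ℝ} {m : ℝ → ℕ} {A B : Finset ℝ} (hd : Disjoint A B) (hA : Has Λ m a A)
    (hB : Has Λ m b B) : Has Λ m (a + b) (A ∪ B) := by
  classical
  obtain ⟨YA, a1, a2⟩ := hA
  obtain ⟨YB, b1, b2⟩ := hB
  obtain ⟨Y, hY⟩ : ∃ Y : ℝ → ℝ → ℝ, Y = fun x y => if x ∈ A ∧ y ∈ A then YA x y else
    if x ∈ B ∧ y ∈ B then YB x y else 0 := ⟨_, rfl⟩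
  have hnA : ∀ x ∈ B, x ∉ A := fun x hx hx' => Finset.disjoint_left.mp hd hx' hx
  have hnB : ∀ x ∈ A, x ∉ B := fun x hx hx' => Finset.disjoint_left.mp hd hx hx'
  have e1 : ∀ x ∈ A, ∀ y ∈ A, Y x y = YA x y := by
    intro x hx y hy; rw [hY]; simp only [hx, hy, and_self, if_true]
  have e2 : ∀ x ∈ B, ∀ y ∈ B, Y x y = YB x y := by
    intro x hx y hy; rw [hY]; simp only [hx, hy, hnA x hx, and_self, if_true, false_and, if_false]
  have e3 : ∀ x ∈ A, ∀ y ∈ B, Y x y = 0 := by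
    intro x hx y hy; rw [hY]; simp only [hnA y hy, hnB x hx, and_false, false_and, if_false]
  have e4 : ∀ x ∈ B, ∀ y ∈ A, Y x y = 0 := by
    intro x hx y hy; rw [hY]; simp only [hnA x hx, hnB y hy, and_false, false_and, if_false]
  refine ⟨Y, fun v => ?_, ?_⟩
  · rw [blk A B hd (fun x y => YA x y * (conj (v x) * v y).re)
      (fun x y => YB x y * (conj (v x) * v y).re) _
      (fun x hx y hy => by rw [e1 x hx y hy]) (fun x hx y hy => by rw [e2 x hx y hy])
      (fun x hx y hy => by rw [e3 x hx y hy, zero_mul])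
      (fun x hx y hy => by rw [e4 x hx y hy, zero_mul]), Finset.sum_union hd]
    have := a1 v
    have := b1 v
    linarith
  · have h : Val Λ m (A ∪ B) Y = Val Λ m A YA + Val Λ m B YB := by
      unfold Val
      rw [blk A B hd (fun x y => YA x y * (Real.sqrt (m x) * Real.sqrt (m y) *
            (phi Λ ((x : ℂ) - y)).re))
          (fun x y => YB x y * (Real.sqrt (m x) * Real.sqrt (m y) * (phi Λ ((x : ℂ) - y)).re)) _
          (fun x hx y hy => by rw [e1 x hx y hy]) (fun x hx y hy => by rw [e2 x hx y hy])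
          (fun x hx y hy => by rw [e3 x hx y hy, zero_mul])
          (fun x hx y hy => by rw [e4 x hx y hy, zero_mul]),
        blk A B hd (fun x y => (YA x y) ^ 2) (fun x y => (YB x y) ^ 2) _
          (fun x hx y hy => by rw [e1 x hx y hy]) (fun x hx y hy => by rw [e2 x hx y hy])
          (fun x hx y hy => by rw [e3 x hx y hy]; ring)
          (fun x hx y hy => by rw [e4 x hx y hy]; ring)]
      ring
    rw [h]
    linarith

lemma phi0 (Λ x : ℝ) : (phi Λ ((x : ℂ) - x)).re = 1 := by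
  rw [sub_self, phi_zero, Complex.one_re]

lemma phi_symm' (Λ x y : ℝ) : (phi Λ ((x : ℂ) - y)).re = (phi Λ ((y : ℂ) - x)).re := by
  rw [← phi_even, neg_sub]

lemma conj_self_re (z : ℂ) : (conj z * z).re = ‖z‖ ^ 2 := by
  rw [Complex.conj_mul']
  rw [← Complex.ofReal_pow, Complex.ofReal_re]

lemma sum_diag (S : Finset ℝ) (d : ℝ → ℝ) (f : ℝ → ℝ → ℝ) :
    ∑ x ∈ S, ∑ y ∈ S, (if x = y then d x else 0) * f x y = ∑ x ∈ S, d x * f x x := by
  refine Finset.sum_congr rfl fun x hx => ?_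
  simp_rw [ite_mul, zero_mul]
  rw [Finset.sum_ite_eq, if_pos hx]

/-- multiple points, test matrix `2` on the diagonal -/
lemma Has.multiple {Λ : ℝ} {m : ℝ → ℕ} (S : Finset ℝ) :
    Has Λ m (∑ x ∈ S, (4 * (m x : ℝ) - 4)) S := by
  classical
  refine ⟨fun x y => if x = y then 2 else 0, fun v => ?_, ?_⟩
  · rw [sum_diag S (fun _ => 2) (fun x y => (conj (v x) * v y).re), Finset.mul_sum]
    refine Finset.sum_le_sum fun x _ => ?_
    rw [conj_self_re]
  · unfold Val
    rw [sum_diag S (fun _ => 2) (fun x y => Real.sqrt (m x) * Real.sqrt (m y) *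
      (phi Λ ((x : ℂ) - y)).re)]
    have e : ∑ x ∈ S, ∑ y ∈ S, ((if x = y then 2 else 0 : ℝ)) ^ 2 = ∑ x ∈ S, (4 : ℝ) := by
      refine Finset.sum_congr rfl fun x hx => ?_
      have : ∀ y, (if x = y then 2 else 0 : ℝ) ^ 2 = if x = y then 4 else 0 := by
        intro y; split_ifs <;> norm_num
      simp_rw [this]
      rw [Finset.sum_ite_eq, if_pos hx]
    rw [e, Finset.mul_sum, ← Finset.sum_sub_distrib]
    refine le_of_eq (Finset.sum_congr rfl fun x _ => ?_)
    rw [phi0, Real.mul_self_sqrt (Nat.cast_nonneg _)]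
    ring

/-- simple points: from the costs of the starting library -/
lemma Has.of_cost {Λ q : ℝ} {m : ℝ → ℕ} {S : Finset ℝ} (hm : ∀ x ∈ S, m x = 1)
    (h : Cost Λ q S) : Has Λ m (2 * (S.card : ℝ) - q) S := by
  classical
  obtain ⟨Y, h1, h2⟩ := h
  refine ⟨fun x y => (if x = y then 1 else 0) + Y x y, fun v => ?_, ?_⟩
  · simp_rw [add_mul, Finset.sum_add_distrib]
    rw [sum_diag S (fun _ => 1) (fun x y => (conj (v x) * v y).re)]
    have e : ∑ x ∈ S, 1 * (conj (v x) * v x).re = ∑ x ∈ S, ‖v x‖ ^ 2 :=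
      Finset.sum_congr rfl fun x _ => by rw [one_mul, conj_self_re]
    rw [e]
    have := h1 v
    linarith
  · have e1 : Val Λ m S (fun x y => (if x = y then 1 else 0) + Y x y) =
        (S.card : ℝ) + YT Λ S Y := by
      unfold Val YT
      have a1 : ∑ x ∈ S, ∑ y ∈ S, ((if x = y then 1 else 0) + Y x y) *
          (Real.sqrt (m x) * Real.sqrt (m y) * (phi Λ ((x : ℂ) - y)).re) =
          (S.card : ℝ) + ∑ x ∈ S, ∑ y ∈ S, Y x y * (phi Λ ((x : ℂ) - y)).re := by
        have b1 : ∀ x ∈ S, ∀ y ∈ S, ((if x = y then 1 else 0) + Y x y) *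
          (Real.sqrt (m x) * Real.sqrt (m y) * (phi Λ ((x : ℂ) - y)).re) =
          (if x = y then 1 else 0) * (phi Λ ((x : ℂ) - y)).re +
            Y x y * (phi Λ ((x : ℂ) - y)).re := by
          intro x hx y hy
          rw [hm x hx, hm y hy]
          simp only [Nat.cast_one, Real.sqrt_one, one_mul]
          ring
        rw [Finset.sum_congr rfl fun x hx => Finset.sum_congr rfl fun y hy => b1 x hx y hy]
        simp_rw [Finset.sum_add_distrib]
        rw [sum_diag S (fun _ => 1) (fun x y => (phi Λ ((x : ℂ) - y)).re)]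
        congr 1
        rw [Finset.card_eq_sum_ones, Nat.cast_sum]
        refine Finset.sum_congr rfl fun x _ => ?_
        rw [phi0]; simp
      have a2 : ∑ x ∈ S, ∑ y ∈ S, ((if x = y then 1 else 0) + Y x y) ^ 2 =
          (S.card : ℝ) + 2 * ∑ x ∈ S, Y x x + ∑ x ∈ S, ∑ y ∈ S, (Y x y) ^ 2 := by
        rw [Finset.card_eq_sum_ones, Nat.cast_sum, Finset.mul_sum, ← Finset.sum_add_distrib,
          ← Finset.sum_add_distrib]
        refine Finset.sum_congr rfl fun z hz => ?_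
        have : ∀ w, ((if z = w then 1 else 0) + Y z w) ^ 2 =
            (if z = w then 1 + 2 * Y z w else 0) + (Y z w) ^ 2 := by
          intro w
          split_ifs <;> ring
        simp_rw [this]
        rw [Finset.sum_add_distrib, Finset.sum_ite_eq, if_pos hz]
        simp
      have a3 : ∑ x ∈ S, ∑ y ∈ S, Y x y * ((phi Λ ((x : ℂ) - y)).re - if x = y then 1 else 0) =
          ∑ x ∈ S, ∑ y ∈ S, Y x y * (phi Λ ((x : ℂ) - y)).re - ∑ x ∈ S, Y x x := by
        rw [← Finset.sum_sub_distrib]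
        refine Finset.sum_congr rfl fun z hz => ?_
        simp_rw [mul_sub, mul_ite, mul_one, mul_zero]
        rw [Finset.sum_sub_distrib, Finset.sum_ite_eq, if_pos hz]
      rw [a1, a2, a3]
      ring
    rw [e1]
    linarith

/-- two simple points -/
lemma Has.pair {Λ : ℝ} {m : ℝ → ℕ} {x y : ℝ} (hxy : x ≠ y) (hx : m x = 1) (hy : m y = 1)
    {t : ℝ} (ht : |t| ≤ 1) :
    Has Λ m (2 + 4 * t * (phi Λ ((x : ℂ) - y)).re - 2 * t ^ 2) {x, y} := by
  classical
  have hyx : y ≠ x := hxy.symm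
  refine ⟨fun a b => if a = b then 1 else t, fun v => ?_, ?_⟩
  · rw [Finset.sum_pair hxy, Finset.sum_pair hxy, Finset.sum_pair hxy, Finset.sum_pair hxy]
    simp only [if_true, hxy, hyx, if_false, one_mul]
    rw [conj_self_re, conj_self_re]
    have h4 : (conj (v y) * v x).re = (conj (v x) * v y).re := by
      simp only [Complex.mul_re, Complex.conj_re, Complex.conj_im]
      ring
    rw [h4]
    have h5 : |(conj (v x) * v y).re| ≤ ‖v x‖ * ‖v y‖ := by
      refine (Complex.abs_re_le_norm _).trans ?_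
      rw [norm_mul, Complex.norm_conj]
    have h6 : t * (conj (v x) * v y).re ≤ ‖v x‖ * ‖v y‖ := by
      have a1 := le_abs_self (t * (conj (v x) * v y).re)
      rw [abs_mul] at a1
      have a2 : |t| * |(conj (v x) * v y).re| ≤ 1 * (‖v x‖ * ‖v y‖) :=
        mul_le_mul ht h5 (abs_nonneg _) (by norm_num)
      linarith
    have a3 := two_mul_le_add_sq (‖v x‖) (‖v y‖)
    linarith
  · unfold Val
    rw [Finset.sum_pair hxy, Finset.sum_pair hxy, Finset.sum_pair hxy, Finset.sum_pair hxy,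
      Finset.sum_pair hxy, Finset.sum_pair hxy]
    simp only [if_true, hxy, hyx, if_false, one_mul, hx, hy, Nat.cast_one, Real.sqrt_one]
    rw [phi0, phi0, phi_symm' Λ y x]
    linarith

/-- a simple point and a double point -/
lemma Has.pair12 {Λ : ℝ} {m : ℝ → ℕ} {x y : ℝ} (hxy : x ≠ y) (hx : m x = 1) (hy : m y = 2) :
    Has Λ m (4.4375 + 2 * Real.sqrt 2 * (phi Λ ((x : ℂ) - y)).re) {x, y} := by
  classical
  have hyx : y ≠ x := hxy.symm
  refine ⟨fun a b => if a = b then (if a = x then 1 else 7 / 4) else 1 / 2, fun v => ?_, ?_⟩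
  · rw [Finset.sum_pair hxy, Finset.sum_pair hxy, Finset.sum_pair hxy, Finset.sum_pair hxy]
    simp only [if_true, hxy, hyx, if_false, one_mul]
    rw [conj_self_re, conj_self_re]
    have h4 : (conj (v y) * v x).re = (conj (v x) * v y).re := by
      simp only [Complex.mul_re, Complex.conj_re, Complex.conj_im]
      ring
    rw [h4]
    have h5 : (conj (v x) * v y).re ≤ ‖v x‖ * ‖v y‖ := by
      refine (le_abs_self _).trans ((Complex.abs_re_le_norm _).trans ?_)
      rw [norm_mul, Complex.norm_conj]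
    have a3 := sq_nonneg (‖v x‖ - ‖v y‖ / 2)
    nlinarith
  · unfold Val
    rw [Finset.sum_pair hxy, Finset.sum_pair hxy, Finset.sum_pair hxy, Finset.sum_pair hxy,
      Finset.sum_pair hxy, Finset.sum_pair hxy]
    simp only [if_true, hxy, hyx, if_false, one_mul, hx, hy, Nat.cast_one, Real.sqrt_one,
      Nat.cast_ofNat]
    rw [phi0, phi0, phi_symm' Λ y x]
    have h2 : Real.sqrt 2 * Real.sqrt 2 = 2 := Real.mul_self_sqrt (by norm_num)
    nlinarith

/-- three simple points -/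
lemma Has.triple {Λ : ℝ} {m : ℝ → ℕ} {x y z : ℝ} (hxy : x ≠ y) (hyz : y ≠ z) (hxz : x ≠ z)
    (hx : m x = 1) (hy : m y = 1) (hz : m z = 1) {t u : ℝ} (ht : t ^ 2 + u ^ 2 ≤ 1) :
    Has Λ m (3 + 4 * (t * (phi Λ ((x : ℂ) - y)).re + u * (phi Λ ((y : ℂ) - z)).re)
      - 2 * (t ^ 2 + u ^ 2)) {x, y, z} := by
  classical
  have hyx : y ≠ x := hxy.symm
  have hzy : z ≠ y := hyz.symm
  have hzx : z ≠ x := hxz.symm
  have e : ∀ f : ℝ → ℝ, ∑ a ∈ ({x, y, z} : Finset ℝ), f a = f x + f y + f z := by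
    intro f
    rw [Finset.sum_insert (by simp [hxy, hxz]), Finset.sum_pair hyz]; ring
  refine ⟨fun a b => if a = b then 1 else if (a = x ∧ b = y) ∨ (a = y ∧ b = x) then t else
    if (a = y ∧ b = z) ∨ (a = z ∧ b = y) then u else 0, fun v => ?_, ?_⟩
  · simp only [e]
    simp only [if_true, hxy, hyx, hyz, hzy, hxz, hzx, if_false, and_true, and_false, or_true,
      true_and, false_and, or_false, false_or, and_self, one_mul, zero_mul]
    rw [conj_self_re, conj_self_re, conj_self_re]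
    have h4 : (conj (v y) * v x).re = (conj (v x) * v y).re := by
      simp only [Complex.mul_re, Complex.conj_re, Complex.conj_im]
      ring
    have h4' : (conj (v z) * v y).re = (conj (v y) * v z).re := by
      simp only [Complex.mul_re, Complex.conj_re, Complex.conj_im]
      ring
    rw [h4, h4']
    have key : ∀ (s : ℝ) (a b : ℂ), 2 * (s * (conj a * b).re) ≤ ‖a‖ ^ 2 + s ^ 2 * ‖b‖ ^ 2 := by
      intro s a b
      have h5 : |(conj a * b).re| ≤ ‖a‖ * ‖b‖ := by
        refine (Complex.abs_re_le_norm _).trans ?_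
        rw [norm_mul, Complex.norm_conj]
      have a1 := le_abs_self (s * (conj a * b).re)
      rw [abs_mul] at a1
      have a2 : |s| * |(conj a * b).re| ≤ |s| * (‖a‖ * ‖b‖) :=
        mul_le_mul_of_nonneg_left h5 (abs_nonneg _)
      have a3 := sq_nonneg (‖a‖ - |s| * ‖b‖)
      have a4 : (|s| * ‖b‖) ^ 2 = s ^ 2 * ‖b‖ ^ 2 := by rw [mul_pow, sq_abs]
      nlinarith
    have k1 := key t (v x) (v y)
    have k2 := key u (v z) (v y)
    have k3 : (conj (v z) * v y).re = (conj (v y) * v z).re := h4'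
    rw [k3] at k2
    have k4 : (t ^ 2 + u ^ 2) * ‖v y‖ ^ 2 ≤ 1 * ‖v y‖ ^ 2 :=
      mul_le_mul_of_nonneg_right ht (by positivity)
    linarith
  · unfold Val
    simp only [e]
    simp only [if_true, hxy, hyx, hyz, hzy, hxz, hzx, if_false, and_true, and_false, or_true,
      true_and, false_and, or_false, false_or, and_self, one_mul, zero_mul, hx, hy, hz,
      Nat.cast_one, Real.sqrt_one]
    rw [phi0, phi0, phi0, phi_symm' Λ y x, phi_symm' Λ z y]
    linarith

end Pool.Agent.Helper647.GL
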