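import Pool.Agent.Helper647_GL.Has

/-! Numerical lower bounds for the squares of the values of the Montgomery-Taylor kernel. -/

open Complex Filter Topology Set MeasureTheory
open scoped BigOperators ComplexConjugate

namespace Pool.Agent.Helper647.GL

open H370 Pool.Agent.W201 Pool.Agent.R304.GR

/-- the constant `√2 tan (1/√2)` is less than `1.2085` -/
lemma qq_lt' : Expl.qq ≤ 1.2085 := by
  obtain ⟨h1, h2⟩ := Expl.exp_num
  rw [abs_le] at h1 h2
  unfold Expl.qq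
  rw [div_le_iff₀ GramAux.cos_half_pos]
  norm_num at h1 h2 ⊢
  linarith [h1.1, h2.2]

/-- a lower bound of the kernel near `1/2` -/
noncomputable def ell (w : ℝ) : ℝ := 0.6602 + 1.19 * w - 0.6 * w ^ 2 - w ^ 3

noncomputable def Cp (w : ℝ) : ℝ :=
  1 - 9.8697 * w ^ 2 / 2 + 9.869 ^ 2 * w ^ 4 / 24 - 9.8697 ^ 3 * w ^ 6 / 720

lemma R_neg {w : ℝ} (h0 : -(8 / 25) ≤ w) (h1 : w ≤ 0) :
    (4 * 9.8697 * (1 / 2 - w) ^ 2 - 2) * ell w ≤
      3.1415 * (4 * (1 / 2 - w) * Cp w / 1.2085 - 2 * (w - 9.8697 * w ^ 3 / 6)) := by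
  have hA : 0 ≤ w + (8 / 25) := by linarith
  have hB : 0 ≤ (0) - w := by linarith
  have key : 3.1415 * (4 * (1 / 2 - w) * Cp w / 1.2085 - 2 * (w - 9.8697 * w ^ 3 / 6)) -
      (4 * 9.8697 * (1 / 2 - w) ^ 2 - 2) * ell w =
      (594654300100193658534773 / 2376007680000000000000) * ((0) - w) ^ 7 +
      (85311697414315929457403 / 95040307200000000000) * (w + (8 / 25)) ^ 1 * ((0) - w) ^ 6 +
      (52244076513810509 / 48660637286400) * (w + (8 / 25)) ^ 2 * ((0) - w) ^ 5 +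
      (1090292628320819 / 1946425491456) * (w + (8 / 25)) ^ 3 * ((0) - w) ^ 4 +
      (117208058335105 / 648808497152) * (w + (8 / 25)) ^ 4 * ((0) - w) ^ 3 +
      (67387915190775 / 648808497152) * (w + (8 / 25)) ^ 5 * ((0) - w) ^ 2 +
      (34507797598125 / 648808497152) * (w + (8 / 25)) ^ 6 * ((0) - w) ^ 1 +
      (6478869546875 / 648808497152) * (w + (8 / 25)) ^ 7 := by
    unfold ell Cp
    ring
  have : 0 ≤ 3.1415 * (4 * (1 / 2 - w) * Cp w / 1.2085 - 2 * (w - 9.8697 * w ^ 3 / 6)) -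
      (4 * 9.8697 * (1 / 2 - w) ^ 2 - 2) * ell w := by
    rw [key]
    positivity
  linarith

lemma R_pos {w : ℝ} (h0 : 0 ≤ w) (h1 : w ≤ 1 / 5) :
    (4 * 9.8697 * (1 / 2 - w) ^ 2 - 2) * ell w ≤
      3.1415 * (4 * (1 / 2 - w) * Cp w / 1.2085 -
        2 * (w - 9.869 * w ^ 3 / 6 + 9.8697 ^ 2 * w ^ 5 / 120)) := by
  have hA : 0 ≤ w - (0) := by linarith
  have hB : 0 ≤ (1 / 5) - w := by linarith
  have key : 3.1415 * (4 * (1 / 2 - w) * Cp w / 1.2085 -
        2 * (w - 9.869 * w ^ 3 / 6 + 9.8697 ^ 2 * w ^ 5 / 120)) -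
      (4 * 9.8697 * (1 / 2 - w) ^ 2 - 2) * ell w =
      (414647651 / 1546880) * ((1 / 5) - w) ^ 7 +
      (16681525631 / 7734400) * (w - (0)) ^ 1 * ((1 / 5) - w) ^ 6 +
      (280504120959 / 38672000) * (w - (0)) ^ 2 * ((1 / 5) - w) ^ 5 +
      (18240823207 / 1450200) * (w - (0)) ^ 3 * ((1 / 5) - w) ^ 4 +
      (2829823922273 / 232032000) * (w - (0)) ^ 4 * ((1 / 5) - w) ^ 3 +
      (7813133533289450101 / 1160160000000000) * (w - (0)) ^ 5 * ((1 / 5) - w) ^ 2 +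
      (113506334615645687747 / 58008000000000000) * (w - (0)) ^ 6 * ((1 / 5) - w) ^ 1 +
      (63360737676714558191 / 290040000000000000) * (w - (0)) ^ 7 := by
    unfold ell Cp
    ring
  have : 0 ≤ 3.1415 * (4 * (1 / 2 - w) * Cp w / 1.2085 -
        2 * (w - 9.869 * w ^ 3 / 6 + 9.8697 ^ 2 * w ^ 5 / 120)) -
      (4 * 9.8697 * (1 / 2 - w) ^ 2 - 2) * ell w := by
    rw [key]
    positivity
  linarith

/-- the cubic lower bound of the square of the kernel -/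
noncomputable def LL (w : ℝ) : ℝ := 0.4357 + 1.575 * w - 2 * w ^ 3

lemma LL_neg {w : ℝ} (h0 : -(8 / 25) ≤ w) (h1 : w ≤ 0) : LL w ≤ ell w ^ 2 := by
  have hA : 0 ≤ w + (8 / 25) := by linarith
  have hB : 0 ≤ (0) - w := by linarith
  have key : ell w ^ 2 - LL w =
      (1025445781 / 16777216) * ((0) - w) ^ 6 +
      (2262948495 / 8388608) * (w + (8 / 25)) ^ 1 * ((0) - w) ^ 5 +
      (7032288475 / 16777216) * (w + (8 / 25)) ^ 2 * ((0) - w) ^ 4 +
      (1153336825 / 4194304) * (w + (8 / 25)) ^ 3 * ((0) - w) ^ 3 +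
      (1129722875 / 16777216) * (w + (8 / 25)) ^ 4 * ((0) - w) ^ 2 +
      (16999375 / 8388608) * (w + (8 / 25)) ^ 5 * ((0) - w) ^ 1 +
      (2563125 / 16777216) * (w + (8 / 25)) ^ 6 := by
    unfold ell LL
    ring
  have : 0 ≤ ell w ^ 2 - LL w := by
    rw [key]
    positivity
  linarith

lemma LL_pos {w : ℝ} (h0 : 0 ≤ w) (h1 : w ≤ 1 / 5) : LL w ≤ ell w ^ 2 := by
  have hA : 0 ≤ w - (0) := by linarith
  have hB : 0 ≤ (1 / 5) - w := by linarith
  have key : ell w ^ 2 - LL w =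
      (4101 / 1600) * ((1 / 5) - w) ^ 6 +
      (2993 / 800) * (w - (0)) ^ 1 * ((1 / 5) - w) ^ 5 +
      (23691 / 64) * (w - (0)) ^ 2 * ((1 / 5) - w) ^ 4 +
      (112079 / 80) * (w - (0)) ^ 3 * ((1 / 5) - w) ^ 3 +
      (617727 / 320) * (w - (0)) ^ 4 * ((1 / 5) - w) ^ 2 +
      (912953 / 800) * (w - (0)) ^ 5 * ((1 / 5) - w) ^ 1 +
      (390061 / 1600) * (w - (0)) ^ 6 := by
    unfold ell LL
    ring
  have : 0 ≤ ell w ^ 2 - LL w := by
    rw [key]
    positivity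
  linarith

lemma LL_low {w : ℝ} (h0 : -(1 / 2) ≤ w) (h1 : w ≤ -(8 / 25)) : LL w ≤ 0 := by
  have hA : 0 ≤ w + (1 / 2) := by linarith
  have hB : 0 ≤ (-8 / 25) - w := by linarith
  have key : - LL w =
      (12725 / 729) * ((-8 / 25) - w) ^ 3 +
      (24325 / 486) * (w + (1 / 2)) ^ 1 * ((-8 / 25) - w) ^ 2 +
      (7550 / 243) * (w + (1 / 2)) ^ 2 * ((-8 / 25) - w) ^ 1 +
      (691 / 1458) * (w + (1 / 2)) ^ 3 := by
    unfold LL
    ring
  have : 0 ≤ - LL w := by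
    rw [key]
    positivity
  linarith

lemma LL_high {u : ℝ} (h0 : 0 ≤ u) (h1 : u ≤ 3 / 10) :
    LL (1 / 2 - u) ≤ (1 - 1.52987 * u ^ 2) ^ 2 := by
  have hA : 0 ≤ u - (0) := by linarith
  have hB : 0 ≤ (3 / 10) - u := by linarith
  have key : (1 - 1.52987 * u ^ 2) ^ 2 - LL (1 / 2 - u) =
      (268 / 81) * ((3 / 10) - u) ^ 4 +
      (1297 / 81) * (u - (0)) ^ 1 * ((3 / 10) - u) ^ 3 +
      (371539 / 13500) * (u - (0)) ^ 2 * ((3 / 10) - u) ^ 2 +
      (274867 / 20250) * (u - (0)) ^ 3 * ((3 / 10) - u) ^ 1 +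
      (888146795689 / 810000000000) * (u - (0)) ^ 4 := by
    unfold LL
    ring
  have : 0 ≤ (1 - 1.52987 * u ^ 2) ^ 2 - LL (1 / 2 - u) := by
    rw [key]
    positivity
  linarith

lemma ell_nonneg {w : ℝ} (h0 : -(8 / 25) ≤ w) (h1 : w ≤ 1 / 5) : 0 ≤ ell w := by
  unfold ell
  nlinarith [mul_nonneg (sub_nonneg.2 h0) (sub_nonneg.2 h1), sq_nonneg w, sq_nonneg (w + 8 / 25)]

lemma ell_le {w : ℝ} (h0 : -(8 / 25) ≤ w) (h1 : w ≤ 1 / 5) : ell w ≤ H344.KK (1 / 2 - w) := by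
  have hP1 := pi_sq_lo
  have hP2 := pi_sq_hi
  have hpi := Real.pi_pos
  have hpi3 := Real.pi_gt_d4
  have hq := Expl.qq_pos
  have hq1 := qq_lt'
  have hl := ell_nonneg h0 h1
  set P := Real.pi ^ 2 with hP
  set u : ℝ := 1 / 2 - w with hu
  have hu0 : 3 / 10 ≤ u := by rw [hu]; linarith
  have hf := KK_formula u
  have hx : (2 * Real.pi * u) ^ 2 = 4 * P * u ^ 2 := by rw [hP]; ring
  rw [hx] at hf
  have hx0 : 0 < 4 * P * u ^ 2 - 2 := by nlinarith
  have hs : Real.sin (Real.pi * u) = Real.cos (Real.pi * w) := by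
    rw [hu, show Real.pi * (1 / 2 - w) = Real.pi / 2 - Real.pi * w by ring, Real.sin_pi_div_two_sub]
  have hc : Real.cos (Real.pi * u) = Real.sin (Real.pi * w) := by
    rw [hu, show Real.pi * (1 / 2 - w) = Real.pi / 2 - Real.pi * w by ring, Real.cos_pi_div_two_sub]
  rw [hs, hc] at hf
  -- the cosine
  have hcos : Cp w ≤ Real.cos (Real.pi * w) := by
    have h1 := Helper131.Slab.cos_ge_P6 |Real.pi * w| (abs_nonneg _)
    rw [Real.cos_abs, sq_abs] at h1
    have e4 : |Real.pi * w| ^ 4 = (Real.pi * w) ^ 4 := by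
      rw [show |Real.pi * w| ^ 4 = (|Real.pi * w| ^ 2) ^ 2 by ring, sq_abs]; ring
    have e6 : |Real.pi * w| ^ 6 = (Real.pi * w) ^ 6 := by
      rw [show |Real.pi * w| ^ 6 = (|Real.pi * w| ^ 2) ^ 3 by ring, sq_abs]; ring
    rw [e4, e6] at h1
    have f2 : (Real.pi * w) ^ 2 = P * w ^ 2 := by rw [hP]; ring
    have f4 : (Real.pi * w) ^ 4 = P ^ 2 * w ^ 4 := by rw [hP]; ring
    have f6 : (Real.pi * w) ^ 6 = P ^ 3 * w ^ 6 := by rw [hP]; ring
    rw [f2, f4, f6] at h1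
    refine le_trans ?_ h1
    unfold Cp
    have g1 : P * w ^ 2 ≤ 9.8697 * w ^ 2 := mul_le_mul_of_nonneg_right hP2.le (by positivity)
    have g2 : 9.869 ^ 2 * w ^ 4 ≤ P ^ 2 * w ^ 4 :=
      mul_le_mul_of_nonneg_right (pow_le_pow_left₀ (by norm_num) hP1.le 2) (by positivity)
    have g3 : P ^ 3 * w ^ 6 ≤ 9.8697 ^ 3 * w ^ 6 :=
      mul_le_mul_of_nonneg_right (pow_le_pow_left₀ (by linarith) hP2.le 3) (by positivity)
    linarith
  have hCp0 : 0 ≤ Cp w := by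
    unfold Cp
    have g1 : w ^ 2 ≤ 0.1024 := by nlinarith
    have g2 : w ^ 6 ≤ 0.1024 ^ 3 := by
      have : w ^ 6 = (w ^ 2) ^ 3 := by ring
      rw [this]; exact pow_le_pow_left₀ (by positivity) g1 3
    have g3 : 0 ≤ w ^ 4 := by positivity
    norm_num at g2 ⊢
    nlinarith
  -- the sine
  obtain ⟨S, hS, hS2⟩ : ∃ S : ℝ, Real.sin (Real.pi * w) ≤ Real.pi * S ∧
      (4 * 9.8697 * u ^ 2 - 2) * ell w ≤ 3.1415 * (4 * u * Cp w / 1.2085 - 2 * S) := by
    rcases le_or_gt 0 w with hw | hw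
    · refine ⟨_, ?_, R_pos hw h1⟩
      have h2 := Helper131.Slab.sin_le_P5 (Real.pi * w) (by positivity)
      have f3 : (Real.pi * w) ^ 3 = Real.pi * (P * w ^ 3) := by rw [hP]; ring
      have f5 : (Real.pi * w) ^ 5 = Real.pi * (P ^ 2 * w ^ 5) := by rw [hP]; ring
      rw [f3, f5] at h2
      refine h2.trans ?_
      have g1 : 9.869 * w ^ 3 ≤ P * w ^ 3 := mul_le_mul_of_nonneg_right hP1.le (by positivity)
      have g2 : P ^ 2 * w ^ 5 ≤ 9.8697 ^ 2 * w ^ 5 :=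
        mul_le_mul_of_nonneg_right (pow_le_pow_left₀ (by linarith) hP2.le 2) (by positivity)
      have e : Real.pi * w - Real.pi * (P * w ^ 3) / 6 + Real.pi * (P ^ 2 * w ^ 5) / 120 =
        Real.pi * (w - P * w ^ 3 / 6 + P ^ 2 * w ^ 5 / 120) := by ring
      rw [e]
      apply mul_le_mul_of_nonneg_left _ hpi.le
      linarith
    · refine ⟨_, ?_, R_neg h0 hw.le⟩
      have h2 := Real.sin_ge_sub_cube (x := Real.pi * (-w)) (mul_nonneg hpi.le (by linarith))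
      have f3 : (Real.pi * (-w)) ^ 3 = Real.pi * (P * (-w) ^ 3) := by rw [hP]; ring
      rw [f3, show Real.pi * -w = -(Real.pi * w) by ring, Real.sin_neg] at h2
      have hw3 : 0 ≤ (-w) ^ 3 := pow_nonneg (by linarith) 3
      have g1 : P * (-w) ^ 3 ≤ 9.8697 * (-w) ^ 3 := mul_le_mul_of_nonneg_right hP2.le hw3
      have g2 : Real.pi * (P * (-w) ^ 3) ≤ Real.pi * (9.8697 * (-w) ^ 3) :=
        mul_le_mul_of_nonneg_left g1 hpi.le
      have e : Real.pi * (w - 9.8697 * w ^ 3 / 6) = Real.pi * w + Real.pi * (9.8697 * (-w) ^ 3) / 6 := by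
        ring
      rw [e]
      linarith
  set B : ℝ := 4 * u * Cp w / 1.2085 - 2 * S with hB
  have hB0 : 0 ≤ B := by
    have : 0 ≤ (4 * 9.8697 * u ^ 2 - 2) * ell w := mul_nonneg (by nlinarith) hl
    linarith
  have h3 : (4 * P * u ^ 2 - 2) * ell w ≤ Real.pi * B := by
    calc (4 * P * u ^ 2 - 2) * ell w ≤ (4 * 9.8697 * u ^ 2 - 2) * ell w := by
          apply mul_le_mul_of_nonneg_right _ hl
          nlinarith [sq_nonneg u]
      _ ≤ 3.1415 * B := hS2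
      _ ≤ Real.pi * B := mul_le_mul_of_nonneg_right hpi3.le hB0
  have h4 : Expl.qq * (Real.pi * B) ≤ Expl.qq * ((4 * P * u ^ 2 - 2) * H344.KK u) := by
    have e2 : Expl.qq * ((4 * P * u ^ 2 - 2) * H344.KK u) =
        2 * (2 * Real.pi * u * Real.cos (Real.pi * w) - Expl.qq * Real.sin (Real.pi * w)) := by
      rw [← hf]; ring
    rw [e2]
    have a1 : Expl.qq * Real.sin (Real.pi * w) ≤ Expl.qq * (Real.pi * S) :=
      mul_le_mul_of_nonneg_left hS hq.le
    have a2 : 2 * Real.pi * u * Cp w ≤ 2 * Real.pi * u * Real.cos (Real.pi * w) :=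
      mul_le_mul_of_nonneg_left hcos (by positivity)
    have a3 : Expl.qq * (Real.pi * (4 * u * Cp w / 1.2085)) ≤ 4 * Real.pi * u * Cp w := by
      have : Expl.qq * (Real.pi * (4 * u * Cp w / 1.2085)) =
        (Expl.qq / 1.2085) * (4 * Real.pi * u * Cp w) := by ring
      rw [this]
      have h12 : Expl.qq / 1.2085 ≤ 1 := by rw [div_le_one (by norm_num)]; exact hq1
      have h13 : 0 ≤ 4 * Real.pi * u * Cp w := by positivity
      nlinarith
    have e3 : Expl.qq * (Real.pi * B) = Expl.qq * (Real.pi * (4 * u * Cp w / 1.2085)) -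
        2 * (Expl.qq * (Real.pi * S)) := by rw [hB]; ring
    rw [e3]
    linarith
  have h5 := le_of_mul_le_mul_left h4 hq
  exact le_of_mul_le_mul_left (h3.trans h5) hx0

/-- **the cubic lower bound** -/
theorem KK_sq {u : ℝ} (h0 : 0 ≤ u) (h1 : u ≤ 1) : LL (1 / 2 - u) ≤ H344.KK u ^ 2 := by
  rcases le_or_gt u (3 / 10) with c1 | c1
  · refine (LL_high h0 c1).trans ?_
    have h2 := H344.KK_lower u
    have h3 := Expl.cMTinv_num
    have h4 : (2 * Real.pi * u) ^ 2 / 2 * (cMTinv - 5 / 4) ≤ 19.7394 * u ^ 2 * 0.077503 := by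
      have h5 : (2 * Real.pi * u) ^ 2 / 2 = 2 * Real.pi ^ 2 * u ^ 2 := by ring
      rw [h5]
      apply mul_le_mul
      · have := pi_sq_hi
        have h6 : 0 ≤ u ^ 2 := sq_nonneg u
        nlinarith
      · linarith
      · have := H344.cMTinv_ge; linarith
      · positivity
    have h7 : 1 - 1.52987 * u ^ 2 ≤ H344.KK u := by
      have h6 : 0 ≤ u ^ 2 := sq_nonneg u
      norm_num at h4 ⊢
      nlinarith
    apply pow_le_pow_left₀ _ h7
    nlinarith
  · rcases le_or_gt u (41 / 50) with c2 | c2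
    · have a0 : -(8 / 25) ≤ 1 / 2 - u := by linarith
      have a1 : 1 / 2 - u ≤ 1 / 5 := by linarith
      have h2 := ell_le a0 a1
      rw [show 1 / 2 - (1 / 2 - u) = u by ring] at h2
      have h3 := ell_nonneg a0 a1
      have h4 : ell (1 / 2 - u) ^ 2 ≤ H344.KK u ^ 2 := pow_le_pow_left₀ h3 h2 2
      refine le_trans ?_ h4
      rcases le_or_gt (1 / 2 - u) 0 with c3 | c3
      · exact LL_neg a0 c3
      · exact LL_pos c3.le a1
    · exact (LL_low (by linarith) (by linarith)).trans (sq_nonneg _)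

/-- for two neighbouring gaps of total length at most one -/
theorem KK_two {u v : ℝ} (hu : 0 ≤ u) (hv : 0 ≤ v) (h : u + v ≤ 1) :
    0.8714 ≤ H344.KK u ^ 2 + H344.KK v ^ 2 := by
  have h1 := KK_sq hu (by linarith)
  have h2 := KK_sq hv (by linarith)
  refine le_trans ?_ (add_le_add h1 h2)
  unfold LL
  set a := 1 / 2 - u with ha
  set b := 1 / 2 - v with hb
  have h3 : 0 ≤ a + b := by rw [ha, hb]; linarith
  have ha1 : a ≤ 1 / 2 := by rw [ha]; linarith
  have hb1 : b ≤ 1 / 2 := by rw [hb]; linarith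
  have ha2 : -(1 / 2) ≤ a := by linarith
  have hb2 : -(1 / 2) ≤ b := by linarith
  have h4 : a ^ 2 - a * b + b ^ 2 ≤ 3 / 4 := by nlinarith
  have h5 : a ^ 3 + b ^ 3 = (a + b) * (a ^ 2 - a * b + b ^ 2) := by ring
  have h6 : (a + b) * (a ^ 2 - a * b + b ^ 2) ≤ (a + b) * (3 / 4) :=
    mul_le_mul_of_nonneg_left h4 h3
  norm_num
  linarith

/-- for two gaps, each at most one half, of total length at most two thirds -/
theorem KK_two' {u v : ℝ} (hu : 0 ≤ u) (hv : 0 ≤ v) (hu1 : u ≤ 1 / 2) (hv1 : v ≤ 1 / 2)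
    (h : u + v ≤ 2 / 3) : 1.32 ≤ H344.KK u ^ 2 + H344.KK v ^ 2 := by
  have h1 := KK_sq hu (by linarith)
  have h2 := KK_sq hv (by linarith)
  refine le_trans ?_ (add_le_add h1 h2)
  unfold LL
  set a := 1 / 2 - u with ha
  set b := 1 / 2 - v with hb
  have h3 : 1 / 3 ≤ a + b := by rw [ha, hb]; linarith
  have ha1 : a ≤ 1 / 2 := by rw [ha]; linarith
  have hb1 : b ≤ 1 / 2 := by rw [hb]; linarith
  have ha2 : 0 ≤ a := by linarith
  have hb2 : 0 ≤ b := by linarith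
  have h5 : a ^ 3 + b ^ 3 = (a + b) * (a ^ 2 - a * b + b ^ 2) := by ring
  rcases le_or_gt (a + b) (1 / 2) with c | c
  · have h4 : a ^ 2 - a * b + b ^ 2 ≤ (a + b) ^ 2 := by nlinarith [mul_nonneg ha2 hb2]
    have h6 : (a + b) * (a ^ 2 - a * b + b ^ 2) ≤ (a + b) * (a + b) ^ 2 :=
      mul_le_mul_of_nonneg_left h4 (by linarith)
    set s := a + b with hs
    have h7 : (s - 1 / 3) * (s - 1 / 2) * (s + 5 / 6) ≤ 0 := by
      apply mul_nonpos_of_nonpos_of_nonneg _ (by linarith)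
      exact mul_nonpos_of_nonneg_of_nonpos (by linarith) (by linarith)
    have h8 : s * s ^ 2 ≤ 19 / 36 * s - 5 / 36 := by
      have : (s - 1 / 3) * (s - 1 / 2) * (s + 5 / 6) = s * s ^ 2 - 19 / 36 * s + 5 / 36 := by ring
      linarith
    norm_num
    linarith
  · have h4 : a ^ 2 - a * b + b ^ 2 ≤ 1 / 4 := by
      rcases le_total a b with hab | hab
      · nlinarith
      · nlinarith
    have h6 : (a + b) * (a ^ 2 - a * b + b ^ 2) ≤ (a + b) * (1 / 4) :=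
      mul_le_mul_of_nonneg_left h4 (by linarith)
    norm_num
    linarith

end Pool.Agent.Helper647.GL
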