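import Pool.Agent.Helper647_GL.Gram

/-! The mean number of critical zeros in Gram intervals is at most one. -/

open Complex Filter Topology Set MeasureTheory
open scoped BigOperators ComplexConjugate

namespace Pool.Agent.Helper647.GL

open H370 Pool.Agent.W201 Pool.Agent.R304.GR

lemma vt_lower : ∃ C : ℝ, 0 < C ∧ ∀ X : ℝ, 1 ≤ X → X * Real.log X / 2 - C * X ≤ vt X := by
  obtain ⟨C, hC, h⟩ := psi_bound
  set f : ℝ → ℝ := fun t => vt t - (t * Real.log t / 2 - (C + 1) * t) with hf
  have hder : ∀ t : ℝ, 0 < t → HasDerivAt f (psi t - ((Real.log t + 1) / 2 - (C + 1))) t := by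
    intro t ht
    have h1 := (((hasDerivAt_id t).mul (Real.hasDerivAt_log ht.ne')).div_const 2)
    have h2 := (hasDerivAt_id t).const_mul (C + 1)
    have h3 := (vt_deriv t).sub (h1.sub h2)
    refine h3.congr_deriv ?_
    simp only [id]
    field_simp
  have hmono : MonotoneOn f (Ici 1) := by
    apply monotoneOn_of_deriv_nonneg (convex_Ici 1)
    · intro t ht
      exact (hder t (by have : (1:ℝ) ≤ t := ht; linarith)).continuousAt.continuousWithinAt
    · intro t ht
      rw [interior_Ici] at ht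
      exact (hder t (by have : (1:ℝ) < t := ht; linarith)).differentiableAt.differentiableWithinAt
    · intro t ht
      rw [interior_Ici] at ht
      have ht' : (1 : ℝ) < t := ht
      rw [(hder t (by linarith)).deriv]
      have := (abs_le.mp (h t ht'.le)).1
      linarith
  refine ⟨C + 1 + |vt 1|, by positivity, fun X hX => ?_⟩
  have h1 := hmono (Set.mem_Ici.mpr le_rfl) (Set.mem_Ici.mpr hX) hX
  simp only [hf, Real.log_one, mul_zero, zero_div, mul_one] at h1
  have h2 := neg_abs_le (vt 1)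
  have h3 : 0 ≤ |vt 1| := abs_nonneg _
  nlinarith

lemma NN_upper {F : ℂ → ℂ} (hF : GoodL F) : ∃ b X0 : ℝ, 0 ≤ b ∧ 10 ≤ X0 ∧ ∀ X : ℝ, X0 ≤ X →
    (NN F X0 X : ℝ) ≤ X * Real.log X / (2 * Real.pi) + b * X := by
  obtain ⟨C, hC, hcnt⟩ := H965SI.countShort F hF
  have hlogsmall : ∀ᶠ T : ℝ in atTop, (Real.log T) ^ 2 ≤ T := by
    have h := (isLittleO_log_rpow_atTop (show (0 : ℝ) < 1 / 2 by norm_num)).bound one_pos
    filter_upwards [h, eventually_ge_atTop (1 : ℝ)] with T hT hT1
    have hTpos : 0 < T := by linarith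
    rw [one_mul, Real.norm_eq_abs, Real.norm_eq_abs, abs_of_nonneg (Real.log_nonneg hT1),
      abs_of_nonneg (Real.rpow_nonneg hTpos.le _)] at hT
    have h2 := pow_le_pow_left₀ (Real.log_nonneg hT1) hT 2
    refine h2.trans (le_of_eq ?_)
    rw [← Real.rpow_natCast, ← Real.rpow_mul hTpos.le]
    norm_num
  obtain ⟨T4, hT4⟩ := hlogsmall.exists_forall_of_atTop
  set X0 : ℝ := max T4 10 with hX0
  have hX04 : T4 ≤ X0 := le_max_left _ _
  have hX010 : 10 ≤ X0 := le_max_right _ _
  have hpi := Real.pi_pos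
  have cnt : ∀ X : ℝ, X0 ≤ X → (NN F X (X + X) : ℝ) ≤ X * Real.log X / (2 * Real.pi) + 2 * C * X := by
    intro X hX
    have hX10 : 10 ≤ X := hX010.trans hX
    have h1 := (abs_le.mp (hcnt X hX10 X (by linarith) le_rfl X (X + X) le_rfl (by linarith)
      (by linarith) le_rfl).1).2
    have h2 := hT4 X (hX04.trans hX)
    have h3 : C * (X + (Real.log X) ^ 2) ≤ C * (X + X) := by gcongr
    linarith
  set b : ℝ := 2 * C + NN F X0 (X0 + X0) with hb
  have hN0 : (0 : ℝ) ≤ NN F X0 (X0 + X0) := Nat.cast_nonneg _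
  have main : ∀ k : ℕ, ∀ X : ℝ, X0 ≤ X → X ≤ 2 ^ k * (X0 + X0) →
      (NN F X0 X : ℝ) ≤ X * Real.log X / (2 * Real.pi) + b * X := by
    intro k
    induction k with
    | zero =>
      intro X hX1 hX2
      rw [pow_zero, one_mul] at hX2
      have h1 : (NN F X0 X : ℝ) ≤ NN F X0 (X0 + X0) := by
        exact_mod_cast NN_mono hF (by linarith) le_rfl hX2
      have h2 : 0 ≤ X * Real.log X / (2 * Real.pi) := by
        have := Real.log_nonneg (show (1 : ℝ) ≤ X by linarith)
        have : 0 ≤ X := by linarith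
        positivity
      have h3 : (NN F X0 (X0 + X0) : ℝ) * 1 ≤ (NN F X0 (X0 + X0) : ℝ) * X :=
        mul_le_mul_of_nonneg_left (by linarith) hN0
      have h4 : 0 ≤ C * X := by
        have : 0 ≤ X := by linarith
        positivity
      rw [hb]
      nlinarith
    | succ k ih =>
      intro X hX1 hX2
      rcases le_or_gt X (2 ^ k * (X0 + X0)) with h | h
      · exact ih X hX1 h
      · have hXX : X0 + X0 ≤ X := by
          have : (1 : ℝ) ≤ 2 ^ k := one_le_pow₀ (by norm_num)
          nlinarith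
        have hY1 : X0 ≤ X / 2 := by linarith
        have hY2 : X / 2 ≤ 2 ^ k * (X0 + X0) := by
          rw [pow_succ] at hX2
          linarith
        have h1 := ih (X / 2) hY1 hY2
        have h3 := cnt (X / 2) hY1
        have e : X / 2 + X / 2 = X := by ring
        rw [e] at h3
        have h5 := NN_add hF (a := X0) (b := X / 2) (c := X) (by linarith) hY1 (by linarith)
        have hX0' : 0 < X := by linarith
        have hlog : Real.log (X / 2) ≤ Real.log X := Real.log_le_log (by linarith) (by linarith)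
        have h6 : X / 2 * Real.log (X / 2) / (2 * Real.pi) ≤ X / 2 * Real.log X / (2 * Real.pi) := by
          gcongr
        have h7 : (NN F X0 X : ℝ) = NN F X0 (X / 2) + NN F (X / 2) X := by
          exact_mod_cast h5
        have h8 : X * Real.log X / (2 * Real.pi) = 2 * (X / 2 * Real.log X / (2 * Real.pi)) := by
          ring
        have h9 : C * X ≤ b / 2 * X := by
          apply mul_le_mul_of_nonneg_right _ hX0'.le
          rw [hb]; linarith
        rw [h7, h8]
        linarith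
  refine ⟨b, X0, by rw [hb]; positivity, hX010, fun X hX => ?_⟩
  obtain ⟨k, hk⟩ := pow_unbounded_of_one_lt X (one_lt_two : (1 : ℝ) < 2)
  refine main k X hX (hk.le.trans ?_)
  have : (0 : ℝ) < 2 ^ k := by positivity
  nlinarith

/-- **the mean number of critical zeros in Gram intervals is at most one** -/
theorem cz_mean {F : ℂ → ℂ} (hF : GoodL F) {ε : ℝ} (hε : 0 < ε) :
    ∃ M0 : ℕ, ∀ M : ℕ, M0 ≤ M → ∑ j ∈ Finset.range M, (cz F j : ℝ) ≤ (1 + ε) * M := by
  classical
  obtain ⟨b, X0, hb, hX0, hN⟩ := NN_upper hF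
  obtain ⟨C, hC, hv⟩ := vt_lower
  obtain ⟨T1, hT1B, hT1, hmono, n0, hgp⟩ := gp_data (X0 + 1)
  have hpi := Real.pi_pos
  obtain ⟨X2, hX2⟩ := (Real.tendsto_log_atTop.eventually_ge_atTop
    (max (2 * Real.pi * (2 / ε * (b + (1 + ε) * C / Real.pi))) 1)).exists_forall_of_atTop
  obtain ⟨n1, hn1⟩ := gp_spec (max X2 X0)
  set A : ℝ := ∑ j ∈ Finset.range n0, (cz F j : ℝ) with hA
  have hA0 : 0 ≤ A := Finset.sum_nonneg fun j _ => Nat.cast_nonneg _
  obtain ⟨n2, hn2⟩ := exists_nat_gt (2 * A / ε)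
  refine ⟨max (max n0 n1) n2, fun M hM => ?_⟩
  have hM0 : n0 ≤ M := ((le_max_left _ _).trans (le_max_left _ _)).trans hM
  have hM1 : n1 ≤ M := ((le_max_right _ _).trans (le_max_left _ _)).trans hM
  have hM2 : n2 ≤ M := (le_max_right _ _).trans hM
  obtain ⟨h1, h2, h3, h4⟩ := hn1 M hM1
  have hXX0 : X0 ≤ gp M := (le_max_right _ _).trans h1
  have hsum : ∑ j ∈ Finset.Ico n0 M, cz F j ≤ NN F X0 (gp M) := by
    have hU : 1 ≤ X0 := by linarith
    have e1 : ∀ j ∈ Finset.Ico n0 M, cz F j =
        ∑ x ∈ (CF F X0 (gp M)).filter (fun x => T1 ≤ x ∧ gf x = (j : ℤ)), mo F x := by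
      intro j hj
      rw [Finset.mem_Ico] at hj
      have hj1 := (hgp j hj.1).2.2.2.2
      have hj0 := (hgp j hj.1).1
      refine cz_eq hF hU _ (fun t ht => ?_) (fun t ht => hj1 t)
      refine ⟨by linarith [ht.1], ?_⟩
      -- `gp (j+1) ≤ gp M`
      have h5 := (hgp (j + 1) (by omega))
      have h6 := (hgp M hM0)
      by_contra hc
      have h7 := hmono (gp M) t h6.1 (not_le.mp hc).le
      have h8 := hmono t (gp (j + 1)) (by linarith [ht.1]) ht.2.le
      have h9 : vt (gp (j + 1)) = ((j + 1 : ℕ) : ℝ) * Real.pi := h5.2.2.1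
      have h10 : vt (gp M) = (M : ℝ) * Real.pi := h6.2.2.1
      have h11 : ((j + 1 : ℕ) : ℝ) ≤ M := by exact_mod_cast hj.2
      have h12 : ((j + 1 : ℕ) : ℝ) * Real.pi ≤ M * Real.pi := by gcongr
      linarith [ht.2, not_le.mp hc]
    rw [Finset.sum_congr rfl e1, ← Finset.sum_biUnion]
    · have hsub : (Finset.Ico n0 M).biUnion (fun j =>
          (CF F X0 (gp M)).filter (fun x => T1 ≤ x ∧ gf x = (j : ℤ))) ⊆ CF F X0 (gp M) := by
        intro x hx
        rw [Finset.mem_biUnion] at hx
        obtain ⟨j, _, hj⟩ := hx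
        exact (Finset.mem_filter.mp hj).1
      refine (Finset.sum_le_sum_of_subset hsub).trans ?_
      rw [NN_eq hF hU, sum_CF]
      have e2 : ∑ s ∈ (Zf F X0 (gp M)).filter (fun s => s.re = 1 / 2), mo F s.im =
          ∑ s ∈ (Zf F X0 (gp M)).filter (fun s => s.re = 1 / 2), mult F s := by
        refine Finset.sum_congr rfl fun s hs => ?_
        unfold mo
        rw [half_eta (Finset.mem_filter.mp hs).2]
      rw [e2]
      exact Finset.sum_le_sum_of_subset (Finset.filter_subset _ _)
    · intro i _ j _ hij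
      rw [Function.onFun, Finset.disjoint_left]
      intro x hx hx'
      rw [Finset.mem_filter] at hx hx'
      apply hij
      have : (i : ℤ) = j := hx.2.2.symm.trans hx'.2.2
      exact_mod_cast this
  have hsplit : ∑ j ∈ Finset.range M, (cz F j : ℝ) = A + ∑ j ∈ Finset.Ico n0 M, (cz F j : ℝ) := by
    rw [hA, Finset.sum_range_add_sum_Ico _ hM0]
  have hsum' : ∑ j ∈ Finset.Ico n0 M, (cz F j : ℝ) ≤ (NN F X0 (gp M) : ℝ) := by
    exact_mod_cast hsum
  have h5 := hN (gp M) hXX0
  have h6 := hv (gp M) (by linarith)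
  rw [h3] at h6
  set X : ℝ := gp M with hX
  have hXpos : 0 < X := by linarith
  have h7 := hX2 X ((le_max_left _ _).trans h1)
  have h8 : 2 * Real.pi * (2 / ε * (b + (1 + ε) * C / Real.pi)) ≤ Real.log X :=
    (le_max_left _ _).trans h7
  -- `A ≤ ε/2 M`
  have h9 : A ≤ ε / 2 * M := by
    have : (n2 : ℝ) ≤ M := by exact_mod_cast hM2
    have h10 : 2 * A / ε ≤ M := by linarith
    rw [div_le_iff₀ hε] at h10
    linarith
  set L : ℝ := X * Real.log X / (2 * Real.pi) with hL
  have h10 : L - C / Real.pi * X ≤ M := by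
    have e : (M : ℝ) = M * Real.pi / Real.pi := by field_simp
    rw [e, hL]
    have e2 : X * Real.log X / (2 * Real.pi) - C / Real.pi * X =
        (X * Real.log X / 2 - C * X) / Real.pi := by field_simp
    rw [e2]
    exact div_le_div_of_nonneg_right h6 hpi.le
  have h11 : (b + (1 + ε) * C / Real.pi) * X ≤ ε / 2 * L := by
    have e1 := mul_le_mul_of_nonneg_right h8 hXpos.le
    have e2 : 2 * Real.pi * (2 / ε * (b + (1 + ε) * C / Real.pi)) * X =
        (2 * Real.pi) * (2 / ε) * ((b + (1 + ε) * C / Real.pi) * X) := by ring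
    have e3 : Real.log X * X = (2 * Real.pi) * L := by rw [hL]; field_simp
    rw [e2, e3] at e1
    have e4 : 2 / ε * ((b + (1 + ε) * C / Real.pi) * X) ≤ L := by
      have := (mul_le_mul_iff_right₀ (show (0 : ℝ) < 2 * Real.pi by positivity)).mp
        (show 2 * Real.pi * (2 / ε * ((b + (1 + ε) * C / Real.pi) * X)) ≤ 2 * Real.pi * L by
          linarith)
      exact this
    have e5 : (b + (1 + ε) * C / Real.pi) * X =
        ε / 2 * (2 / ε * ((b + (1 + ε) * C / Real.pi) * X)) := by field_simp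
    rw [e5]
    exact mul_le_mul_of_nonneg_left e4 (by positivity)
  rw [hsplit]
  have h12 : (b + (1 + ε) * C / Real.pi) * X = b * X + (1 + ε) * (C / Real.pi * X) := by ring
  rw [h12] at h11
  have hMnn : (0 : ℝ) ≤ M := Nat.cast_nonneg M
  -- L + bX ≤ (1+ε/2) M
  have h13 : (1 + ε / 2) * (L - C / Real.pi * X) ≤ (1 + ε / 2) * M :=
    mul_le_mul_of_nonneg_left h10 (by positivity)
  have h14 : 0 ≤ C / Real.pi * X := by positivity
  nlinarith

end Pool.Agent.Helper647.GL
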