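import Pool.Agent.Helper647_GL.Zeta

/-! The profile of the blocks in short intervals. -/

open Complex Filter Topology Set MeasureTheory
open scoped BigOperators ComplexConjugate

namespace Pool.Agent.Helper647.GL

open H370 Pool.Agent.W201 Pool.Agent.R304.GR

lemma small_s1 {d σ s θ : ℝ} (hd0 : 0 < d) (hσ0 : 0 < σ)
    (hs : s = (1 + d / 2) * σ) (hθ : θ = 1 - d - d) : θ * (s / σ) ≤ 1 := by
  have e1 : s / σ = 1 + d / 2 := by rw [hs]; field_simp
  rw [e1, hθ]
  nlinarith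

lemma small_s2 {d σ s : ℝ} (hd0 : 0 < d) (hd1 : d ≤ 1 / 10000) (hσ0 : 0 < σ) (hσ1 : σ ≤ d)
    (hs : s = (1 + d / 2) * σ) : s ^ 2 ≤ 1 / 10 ^ 5 := by
  have e0 : 0 ≤ s := by rw [hs]; positivity
  have e3 : s ≤ 2 * d := by
    rw [hs]
    nlinarith
  have e4 : s ^ 2 ≤ (2 * d) ^ 2 := pow_le_pow_left₀ e0 e3 2
  have e5 : (2 * d) ^ 2 ≤ 4 * (1 / 10000) * d := by nlinarith
  norm_num at e5 ⊢
  linarith

/-- the profile of blocks in short intervals -/
theorem profile_short {F : ℂ → ℂ} (hF : GoodL F) {c : ℝ} (hc0 : 0 ≤ c) (hc : c < 2 - 1.327503) :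
    ∃ d κ : ℝ, 0 < d ∧ d < 1 / 2 ∧ 0 < κ ∧ ∃ T0 : ℝ, 10 ≤ T0 ∧ ∀ T : ℝ, T0 ≤ T → ∀ H : ℝ,
      T ^ (1 - d) ≤ H → H ≤ T → ∃ U1 U2 : ℝ, T ≤ U1 ∧ U1 ≤ T + 1 ∧ T + H - 1 ≤ U2 ∧ U2 ≤ T + H ∧
        ∀ lab : ℝ → ℤ, (∀ x y : ℝ, T < x → x ≤ y → y ≤ T + H → lab x = lab y →
            y - x ≤ (1 + κ) * (2 * Real.pi / Real.log T)) →
          c * (NN F T (T + H) : ℝ) ≤ ∑ i ∈ (CF F U1 U2).image lab, vv (cnt F U1 U2 lab i) := by
  classical
  have hpi := Real.pi_pos
  have hpi4 := Real.pi_lt_d2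
  set sl : ℝ := 2 - 1.327503 - c with hsl
  have hsl0 : 0 < sl := by rw [hsl]; linarith
  have hsl1 : sl ≤ 1 := by rw [hsl]; norm_num; linarith
  -- choice of the exponent
  obtain ⟨ρ, hρ0, hρ⟩ : ∃ ρ : ℝ, 0 < ρ ∧ ∀ θ : ℝ, |θ - 1| < ρ → H295Iso.c0 θ ≤ cMTinv + sl / 4 := by
    have hcont := H295Iso.c0_cont (h := 1) one_pos
    have h1 : ∀ᶠ x in 𝓝 (1 : ℝ), H295Iso.c0 x < H295Iso.c0 1 + sl / 4 :=
      hcont.eventually (gt_mem_nhds (by linarith))
    rw [Metric.eventually_nhds_iff] at h1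
    obtain ⟨ρ, hρ0, hρ⟩ := h1
    refine ⟨ρ, hρ0, fun θ hθ => ?_⟩
    have := hρ (y := θ) (by rw [Real.dist_eq]; exact hθ)
    rw [Pool.Agent.H24R3.PairsShort.c0_one] at this
    exact this.le
  set d : ℝ := min (ρ / 3) (1 / 10000) with hd
  have hd0 : 0 < d := by rw [hd]; positivity
  have hd1 : d ≤ 1 / 10000 := min_le_right _ _
  have hd2 : d ≤ ρ / 3 := min_le_left _ _
  set θ : ℝ := 1 - d - d with hθ
  have hθ0 : 0 < θ := by rw [hθ]; linarith
  have hθ1 : θ ≤ 1 := by rw [hθ]; linarith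
  have hcθ : H295Iso.c0 θ ≤ cMTinv + sl / 4 := by
    apply hρ
    rw [hθ, show 1 - d - d - 1 = -(2 * d) by ring, abs_neg, abs_of_pos (by linarith)]
    linarith
  have hcn := Expl.cMTinv_num
  set η : ℝ := sl / 112 with hη
  have hη0 : 0 < η := by rw [hη]; positivity
  obtain ⟨T1, hT1, hPC⟩ := H295Iso.pairShort hF (1 - d) d η hd0 (by linarith) (by linarith) hη0
  obtain ⟨C, hC, hcnt⟩ := H965SI.countShort F hF
  -- large `T`
  have htop : Tendsto (fun T : ℝ => T ^ (1 - d)) atTop atTop := tendsto_rpow_atTop (by linarith)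
  obtain ⟨T2, hT2⟩ := (htop.eventually_ge_atTop 3).exists_forall_of_atTop
  obtain ⟨T3, hT3⟩ := (Real.tendsto_log_atTop.eventually_ge_atTop
    (max (2 * Real.pi * (1 / d)) (64 * C * Real.pi / sl))).exists_forall_of_atTop
  have hlogsmall : ∀ᶠ T : ℝ in atTop, (Real.log T) ^ 2 ≤ T ^ (1 - d) := by
    have h := (isLittleO_log_rpow_atTop (show (0 : ℝ) < (1 - d) / 2 by linarith)).bound one_pos
    filter_upwards [h, eventually_ge_atTop (1 : ℝ)] with T hT hT1
    have hTpos : 0 < T := by linarith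
    rw [one_mul, Real.norm_eq_abs, Real.norm_eq_abs, abs_of_nonneg (Real.log_nonneg hT1),
      abs_of_nonneg (Real.rpow_nonneg hTpos.le _)] at hT
    have h2 := pow_le_pow_left₀ (Real.log_nonneg hT1) hT 2
    refine h2.trans (le_of_eq ?_)
    rw [← Real.rpow_natCast, ← Real.rpow_mul hTpos.le]
    congr 1
    push_cast
    ring
  obtain ⟨T4, hT4⟩ := hlogsmall.exists_forall_of_atTop
  refine ⟨d, d / 2, hd0, by linarith, by linarith, max (max T1 T2) (max (max T3 T4) 10),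
    (le_max_right _ _).trans (le_max_right _ _), fun T hTT H hH hHT => ?_⟩
  have hTT1 : T1 ≤ T := ((le_max_left _ _).trans (le_max_left _ _)).trans hTT
  have hTT2 := hT2 T (((le_max_right _ _).trans (le_max_left _ _)).trans hTT)
  have hTT3 := hT3 T ((((le_max_left _ _).trans (le_max_left _ _)).trans (le_max_right _ _)).trans hTT)
  have hTT4 := hT4 T ((((le_max_right _ _).trans (le_max_left _ _)).trans (le_max_right _ _)).trans hTT)
  have hT10 : 10 ≤ T := ((le_max_right _ _).trans (le_max_right _ _)).trans hTT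
  have hH3 : 3 ≤ H := hTT2.trans hH
  have hlogd : 2 * Real.pi * (1 / d) ≤ Real.log T := (le_max_left _ _).trans hTT3
  have hlogC : 64 * C * Real.pi / sl ≤ Real.log T := (le_max_right _ _).trans hTT3
  have hlog : 0 < Real.log T := lt_of_lt_of_le (by positivity) hlogd
  obtain ⟨U1, U2, hU1, hU1', hU2, hU2', hNN, hQQ⟩ := hPC T hTT1 H hH hHT
  set σ : ℝ := 2 * Real.pi / Real.log T with hσ
  have hσ0 : 0 < σ := by positivity
  have hσ1 : σ ≤ d := by
    rw [hσ, div_le_iff₀ hlog]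
    have h1 := mul_le_mul_of_nonneg_left hlogd hd0.le
    have h2 : d * (2 * Real.pi * (1 / d)) = 2 * Real.pi := by field_simp
    linarith
  set M : ℝ := H / (2 * Real.pi) * Real.log T with hM
  have hM0 : 0 < M := by positivity
  have hM1 : H * Real.log T / (2 * Real.pi) = M := by rw [hM]; ring
  have hM2 : H * Real.log T = 2 * Real.pi * M := by rw [hM]; field_simp
  rw [hM1] at hNN hQQ
  rw [hM2] at hNN
  have hU : 1 ≤ U1 := by linarith
  set Λ : ℝ := (1 - d - d) * Real.log T with hΛ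
  have hΛσ : Λ * σ = 2 * Real.pi * θ := by
    rw [hΛ, hσ, hθ]; field_simp
  refine ⟨U1, U2, hU1, hU1', hU2, hU2', fun lab hlab => ?_⟩
  · obtain ⟨s, hs⟩ : ∃ s, s = (1 + d / 2) * σ := ⟨_, rfl⟩
    have hs0 : 0 ≤ s := by rw [hs]; positivity
    have hs1 : 1.6 * (θ * (s / σ)) + s ^ 2 / 4 ≤ 1.6 := small_s hd0 hd1 hσ0 hσ1 hs hθ
    have hb := blocks_profile hF hU (U2 := U2) hσ0 hθ0 hΛσ hs0 (small_s1 hd0 hσ0 hs hθ) hs1
      (small_s2 hd0 hd1 hσ0 hσ1 hs) lab (by
      intro x hx y hy hxy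
      have h1 := CF_mem hF hU hx
      have h2 := CF_mem hF hU hy
      rcases le_or_gt x y with h | h
      · rw [hs]
        exact hlab x y (by linarith [h1.1]) h (by linarith [h2.2]) hxy
      · linarith)
    refine le_trans ?_ hb
    have h2 := (abs_le.mp hNN).1
    have h9 : M * (H295Iso.c0 (1 - d - d) + η) ≤ M * (1.327503 + sl / 4 + η) :=
      mul_le_mul_of_nonneg_left (by linarith) hM0.le
    have h11 : η * (2 * Real.pi * M) ≤ sl / 16 * M := by
      have e1 : η * (2 * Real.pi * M) = (η * (2 * Real.pi)) * M := by ring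
      rw [e1]
      exact mul_le_mul_of_nonneg_right (small_eta hsl0 hη) hM0.le
    have h12 : M * η ≤ sl / 112 * M := by rw [hη]; linarith
    -- the number of zeros
    have hN := (abs_le.mp (hcnt T hT10 H hH3 hHT T (T + H) le_rfl (by linarith) (by linarith)
      le_rfl).1).2
    rw [hM1] at hN
    have h13 : C * (H + (Real.log T) ^ 2) ≤ sl / 16 * M := by
      have a1 : (Real.log T) ^ 2 ≤ H := hTT4.trans hH
      have a2 : C * (H + (Real.log T) ^ 2) ≤ C * (2 * H) := by gcongr; linarith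
      have a3 : sl / 16 * M = sl * Real.log T / (32 * Real.pi) * H := by rw [hM]; field_simp; ring
      rw [a3]
      refine a2.trans ?_
      have a4 : C * 2 ≤ sl * Real.log T / (32 * Real.pi) := by
        rw [le_div_iff₀ (by positivity)]
        rw [div_le_iff₀ hsl0] at hlogC
        linarith
      have a5 := mul_le_mul_of_nonneg_right a4 (show 0 ≤ H by linarith)
      linarith
    have h14 : c * (NN F T (T + H) : ℝ) ≤ c * (M + sl / 16 * M) :=
      mul_le_mul_of_nonneg_left (by linarith) hc0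
    have hc1 : c ≤ 1 := by norm_num at hc; linarith
    have h15 : c * (M + sl / 16 * M) ≤ c * M + sl / 16 * M := by
      rw [mul_add]
      exact add_le_add le_rfl (mul_le_of_le_one_left (by positivity) hc1)
    have h16 : c * M = 2 * M - 1.327503 * M - sl * M := by rw [hsl]; ring
    have h17 : M * (1.327503 + sl / 4 + η) = 1.327503 * M + sl / 4 * M + M * η := by ring
    have h18 : 0 < sl * M := by positivity
    norm_num at h9 h16 h17 ⊢
    linarith

/-- the label: the index of the Gram interval `[g_j, g_{j+1})` -/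
noncomputable def gf (t : ℝ) : ℤ := ⌊vt t / Real.pi⌋

lemma gf_iff (t : ℝ) (n : ℤ) : gf t = n ↔ (n : ℝ) * Real.pi ≤ vt t ∧ vt t < (n + 1 : ℝ) * Real.pi := by
  unfold gf
  rw [Int.floor_eq_iff, le_div_iff₀ Real.pi_pos, div_lt_iff₀ Real.pi_pos]

/-- the profile of the Gram intervals in short intervals -/
theorem gram_profile_short {F : ℂ → ℂ} (hF : GoodL F) {c : ℝ} (hc0 : 0 ≤ c)
    (hc : c < 2 - 1.327503) :
    ∃ d : ℝ, 0 < d ∧ d < 1 / 2 ∧ ∃ T0 : ℝ, 10 ≤ T0 ∧ ∀ T : ℝ, T0 ≤ T → ∀ H : ℝ,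
      T ^ (1 - d) ≤ H → H ≤ T → ∃ U1 U2 : ℝ, T ≤ U1 ∧ U1 ≤ T + 1 ∧ T + H - 1 ≤ U2 ∧ U2 ≤ T + H ∧
          c * (NN F T (T + H) : ℝ) ≤ ∑ i ∈ (CF F U1 U2).image gf, vv (cnt F U1 U2 gf i) := by
  classical
  obtain ⟨d, κ, hd0, hd1, hκ, T1, hT1, h⟩ := profile_short hF hc0 hc
  obtain ⟨C, hC, hgc⟩ := gram_close
  obtain ⟨T2, hT2⟩ := (Real.tendsto_log_atTop.eventually_ge_atTop
    (2 * C * (1 + κ) / κ + 1)).exists_forall_of_atTop
  refine ⟨d, hd0, hd1, max T1 T2, hT1.trans (le_max_left _ _), fun T hT H hH hHT => ?_⟩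
  obtain ⟨U1, U2, hU1, hU1', hU2, hU2', hlab⟩ := h T ((le_max_left _ _).trans hT) H hH hHT
  refine ⟨U1, U2, hU1, hU1', hU2, hU2', hlab gf fun x y hx hxy hy hg => ?_⟩
  have hT10 : 10 ≤ T := hT1.trans ((le_max_left _ _).trans hT)
  have hlog := hT2 T ((le_max_right _ _).trans hT)
  have h1 := hgc T (by linarith) x y hx.le hxy
  have h2 := (gf_iff x (gf y)).mp hg
  have h3 := (gf_iff y (gf y)).mp rfl
  have hpi := Real.pi_pos
  have h4 : vt y - vt x ≤ Real.pi := by nlinarith [h2.1, h3.2]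
  have h5 : (Real.log T / 2 - C) * (y - x) ≤ Real.pi := h1.trans h4
  have hlogC : 2 * C * (1 + κ) ≤ κ * Real.log T := by
    have h6 : 2 * C * (1 + κ) / κ ≤ Real.log T := by linarith
    rw [div_le_iff₀ hκ] at h6
    linarith
  have hlog0 : 0 < Real.log T := by
    have : 0 < 2 * C * (1 + κ) / κ := by positivity
    linarith
  rw [mul_div_assoc', le_div_iff₀ hlog0]
  have h7 : 0 ≤ y - x := by linarith
  have h8 : Real.log T ≤ (1 + κ) * (2 * (Real.log T / 2 - C)) := by nlinarith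
  have h9 : (y - x) * Real.log T ≤ (y - x) * ((1 + κ) * (2 * (Real.log T / 2 - C))) :=
    mul_le_mul_of_nonneg_left h8 h7
  have h10 : (y - x) * ((1 + κ) * (2 * (Real.log T / 2 - C))) =
      (1 + κ) * (2 * ((Real.log T / 2 - C) * (y - x))) := by ring
  rw [h10] at h9
  refine h9.trans ?_
  have h11 : 0 ≤ 1 + κ := by linarith
  nlinarith

end Pool.Agent.Helper647.GL
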