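import Pool.Agent.H370R2.Trace

/-! The trace inequality with a general test matrix on all real points, multiple points included. -/

open scoped BigOperators ComplexConjugate

namespace Pool.Agent.Helper647.GL

open H370

/-- `dsum` for two sets -/
theorem trace_real {E : Type*} [NormedAddCommGroup E] [InnerProductSpace ℂ E]
    (φ : ℂ → ℂ) (k : ℂ → E) (hk : ∀ z w, inner ℂ (k z) (k w) = φ (w - (starRingEnd ℂ) z))
    (hev : ∀ z, φ (-z) = φ z) (h0 : φ 0 = 1)
    (Z : Finset ℂ) (hZ : ∀ z ∈ Z, (starRingEnd ℂ) z ∈ Z) (m : ℂ → ℕ)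
    (hm1 : ∀ z ∈ Z, 1 ≤ m z) (hmc : ∀ z ∈ Z, m ((starRingEnd ℂ) z) = m z)
    (Y : ℂ → ℂ → ℝ)
    (hY : ∀ v : ℂ → ℂ, ∑ x ∈ Z.filter (fun z => z.im = 0),
      ∑ y ∈ Z.filter (fun z => z.im = 0), Y x y * ((starRingEnd ℂ (v x)) * v y).re
        ≤ 2 * ∑ x ∈ Z.filter (fun z => z.im = 0), ‖v x‖ ^ 2) :
    2 * (∑ z ∈ Z, (m z : ℝ) - ∑ z ∈ Z.filter (fun z => z.im = 0), (m z : ℝ))
      + (2 * ∑ x ∈ Z.filter (fun z => z.im = 0),
            ∑ y ∈ Z.filter (fun z => z.im = 0),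
              Y x y * (Real.sqrt (m x) * Real.sqrt (m y) * (φ (x - y)).re)
          - ∑ x ∈ Z.filter (fun z => z.im = 0),
            ∑ y ∈ Z.filter (fun z => z.im = 0), (Y x y) ^ 2)
      ≤ (∑ z ∈ Z, ∑ w ∈ Z, (m z : ℂ) * (m w : ℂ) * (φ (z - w)) ^ 2).re := by
  classical
  set S := Z.filter (fun z => z.im = 0) with hS
  set P := Z.filter (fun z => 0 ≤ z.im) with hP
  -- conj relation
  have hcj : ∀ z, (starRingEnd ℂ) (φ z) = φ ((starRingEnd ℂ) z) := by
    intro z
    have h1 := hk 0 z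
    have h2 := hk z 0
    rw [← inner_conj_symm, h1] at h2
    simp only [map_zero, sub_zero, zero_sub] at h2
    rw [h2, hev]
  -- coefficients
  set c : ℂ → ℝ := fun z => if z.im = 0 then (m z : ℝ) / 4 else (m z : ℝ) / 2 with hc
  have hc0 : ∀ z, 0 ≤ c z := by
    intro z
    simp only [hc]
    split_ifs <;> positivity
  set x : ℂ → E := fun z => ((Real.sqrt (c z) : ℝ) : ℂ) • (k z + k ((starRingEnd ℂ) z)) with hx
  set b : ℂ → E := fun z => ((Real.sqrt (c z) : ℝ) : ℂ) • (k z - k ((starRingEnd ℂ) z)) with hb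
  set D : ℂ → ℂ → ℝ := fun z w => if z ∈ S ∧ w ∈ S then Y z w
    else if z = w then 2 else 0 with hD
  -- splitting sums over Z
  have hsplit : ∀ G : ℂ → ℂ, ∑ z ∈ Z, (m z : ℂ) * G z =
      ∑ z ∈ P, (2 * c z : ℂ) * (G z + G ((starRingEnd ℂ) z)) := by
    intro G
    have h1 : ∑ z ∈ Z, (m z : ℂ) * G z = ∑ z ∈ Z.filter (fun z => z.im = 0), (m z : ℂ) * G z +
        ∑ z ∈ Z.filter (fun z => 0 < z.im), (m z : ℂ) * G z +
        ∑ z ∈ Z.filter (fun z => z.im < 0), (m z : ℂ) * G z := by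
      rw [← Finset.sum_filter_add_sum_filter_not Z (fun z => z.im = 0), add_assoc]
      congr 1
      rw [← Finset.sum_filter_add_sum_filter_not (Z.filter (fun z => ¬ z.im = 0))
        (fun z => 0 < z.im), Finset.filter_filter, Finset.filter_filter]
      congr 1
      · refine Finset.sum_congr ?_ fun _ _ => rfl
        ext z
        simp only [Finset.mem_filter]
        constructor
        · rintro ⟨h1, h2, h3⟩; exact ⟨h1, h3⟩
        · rintro ⟨h1, h3⟩; exact ⟨h1, ne_of_gt h3, h3⟩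
      · refine Finset.sum_congr ?_ fun _ _ => rfl
        ext z
        simp only [Finset.mem_filter, not_lt]
        constructor
        · rintro ⟨h1, h2, h3⟩; exact ⟨h1, lt_of_le_of_ne h3 h2⟩
        · rintro ⟨h1, h3⟩; exact ⟨h1, ne_of_lt h3, h3.le⟩
    have h2 : ∑ z ∈ Z.filter (fun z => z.im < 0), (m z : ℂ) * G z =
        ∑ z ∈ Z.filter (fun z => 0 < z.im), (m z : ℂ) * G ((starRingEnd ℂ) z) := by
      refine Finset.sum_nbij' (fun z => (starRingEnd ℂ) z) (fun z => (starRingEnd ℂ) z) ?_ ?_ ?_ ?_ ?_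
      · intro z hz
        simp only [Finset.mem_filter] at hz ⊢
        refine ⟨hZ z hz.1, ?_⟩
        rw [Complex.conj_im]; linarith [hz.2]
      · intro z hz
        simp only [Finset.mem_filter] at hz ⊢
        refine ⟨hZ z hz.1, ?_⟩
        rw [Complex.conj_im]; linarith [hz.2]
      · intro z _; simp
      · intro z _; simp
      · intro z hz
        simp only [Finset.mem_filter] at hz
        rw [hmc z hz.1, Complex.conj_conj]
    have h3 : ∑ z ∈ P, (2 * c z : ℂ) * (G z + G ((starRingEnd ℂ) z)) =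
        ∑ z ∈ Z.filter (fun z => z.im = 0), (2 * c z : ℂ) * (G z + G ((starRingEnd ℂ) z)) +
        ∑ z ∈ Z.filter (fun z => 0 < z.im), (2 * c z : ℂ) * (G z + G ((starRingEnd ℂ) z)) := by
      rw [hP, ← Finset.sum_filter_add_sum_filter_not (Z.filter (fun z => 0 ≤ z.im))
        (fun z => z.im = 0), Finset.filter_filter, Finset.filter_filter]
      congr 1
      · refine Finset.sum_congr ?_ fun _ _ => rfl
        ext z
        simp only [Finset.mem_filter]
        constructor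
        · rintro ⟨h1, h2, h3⟩; exact ⟨h1, h3⟩
        · rintro ⟨h1, h3⟩; exact ⟨h1, h3.ge, h3⟩
      · refine Finset.sum_congr ?_ fun _ _ => rfl
        ext z
        simp only [Finset.mem_filter]
        constructor
        · rintro ⟨h1, h2, h3⟩; exact ⟨h1, lt_of_le_of_ne h2 (Ne.symm h3)⟩
        · rintro ⟨h1, h3⟩; exact ⟨h1, h3.le, ne_of_gt h3⟩
    rw [h1, h2, h3, add_assoc, ← Finset.sum_add_distrib]
    congr 1
    · refine Finset.sum_congr rfl fun z hz => ?_
      simp only [Finset.mem_filter] at hz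
      have hzc : (starRingEnd ℂ) z = z := Complex.conj_eq_iff_im.mpr hz.2
      rw [hzc]
      simp only [hc, if_pos hz.2]
      push_cast
      ring
    · refine Finset.sum_congr rfl fun z hz => ?_
      simp only [Finset.mem_filter] at hz
      simp only [hc, if_neg (ne_of_gt hz.2)]
      push_cast
      ring
  -- inner products
  have hxx : ∀ z w, inner ℂ (x z) (x w) = ((Real.sqrt (c z) * Real.sqrt (c w) : ℝ) : ℂ) *
      (φ (w - (starRingEnd ℂ) z) + φ ((starRingEnd ℂ) w - (starRingEnd ℂ) z) + φ (w - z) +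
        φ ((starRingEnd ℂ) w - z)) := by
    intro z w
    simp only [hx]
    rw [inner_smul_left, inner_smul_right, inner_add_left, inner_add_right, inner_add_right,
      hk, hk, hk, hk, Complex.conj_ofReal, Complex.conj_conj]
    push_cast; ring
  have hxb : ∀ z w, inner ℂ (x z) (b w) = ((Real.sqrt (c z) * Real.sqrt (c w) : ℝ) : ℂ) *
      (φ (w - (starRingEnd ℂ) z) - φ ((starRingEnd ℂ) w - (starRingEnd ℂ) z) + φ (w - z) -
        φ ((starRingEnd ℂ) w - z)) := by
    intro z w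
    simp only [hx, hb]
    rw [inner_smul_left, inner_smul_right, inner_add_left, inner_sub_right, inner_sub_right,
      hk, hk, hk, hk, Complex.conj_ofReal, Complex.conj_conj]
    push_cast; ring
  have hbb : ∀ z w, inner ℂ (b z) (b w) = ((Real.sqrt (c z) * Real.sqrt (c w) : ℝ) : ℂ) *
      (φ (w - (starRingEnd ℂ) z) - φ ((starRingEnd ℂ) w - (starRingEnd ℂ) z) - φ (w - z) +
        φ ((starRingEnd ℂ) w - z)) := by
    intro z w
    simp only [hb]
    rw [inner_smul_left, inner_smul_right, inner_sub_left, inner_sub_right, inner_sub_right,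
      hk, hk, hk, hk, Complex.conj_ofReal, Complex.conj_conj]
    push_cast; ring
  -- real forms
  have hA : ∀ z w, φ ((starRingEnd ℂ) w - z) = (starRingEnd ℂ) (φ (w - (starRingEnd ℂ) z)) := by
    intro z w
    rw [hcj]; simp
  have hB : ∀ z w, φ (w - z) = (starRingEnd ℂ) (φ ((starRingEnd ℂ) w - (starRingEnd ℂ) z)) := by
    intro z w
    rw [hcj]; simp
  set r : ℂ → ℂ → ℝ := fun z w => Real.sqrt (c z) * Real.sqrt (c w) *
    (2 * (φ (w - (starRingEnd ℂ) z)).re + 2 * (φ ((starRingEnd ℂ) w - (starRingEnd ℂ) z)).re) with hr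
  have hxxr : ∀ z w, inner ℂ (x z) (x w) = (r z w : ℂ) := by
    intro z w
    rw [hxx, hA z w, hB z w]
    simp only [hr]
    apply Complex.ext
    · simp; left; ring
    · simp
  have hbbr : ∀ z w, inner ℂ (b z) (b w) = ((Real.sqrt (c z) * Real.sqrt (c w) *
    (2 * (φ (w - (starRingEnd ℂ) z)).re - 2 * (φ ((starRingEnd ℂ) w - (starRingEnd ℂ) z)).re) : ℝ)
      : ℂ) := by
    intro z w
    rw [hbb, hA z w, hB z w]
    apply Complex.ext
    · simp; left; ring
    · simp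
  have hxbr : ∀ z w, ‖inner ℂ (x z) (b w)‖ ^ 2 = c z * c w *
    (4 * ((φ (w - (starRingEnd ℂ) z)).im - (φ ((starRingEnd ℂ) w - (starRingEnd ℂ) z)).im) ^ 2) := by
    intro z w
    rw [hxb, hA z w, hB z w, ← Complex.normSq_eq_norm_sq, Complex.normSq_apply]
    simp only [Complex.mul_re, Complex.ofReal_re, Complex.ofReal_im, Complex.sub_re, Complex.add_re,
      Complex.conj_re, Complex.conj_im, Complex.sub_im, Complex.add_im, Complex.mul_im, zero_mul,
      sub_zero, add_zero]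
    have h1 := Real.mul_self_sqrt (hc0 z)
    have h2 := Real.mul_self_sqrt (hc0 w)
    have : ∀ X : ℝ, (Real.sqrt (c z) * Real.sqrt (c w) * X) * (Real.sqrt (c z) * Real.sqrt (c w) * X)
        = c z * c w * (X * X) := by
      intro X
      calc _ = (Real.sqrt (c z) * Real.sqrt (c z)) * (Real.sqrt (c w) * Real.sqrt (c w)) * (X * X) := by
            ring
        _ = _ := by rw [h1, h2]
    rw [this, this]
    ring
  have hsq : ∀ z w, ∀ X : ℝ, (Real.sqrt (c z) * Real.sqrt (c w) * X) ^ 2 = c z * c w * X ^ 2 := by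
    intro z w X
    rw [mul_pow, mul_pow, Real.sq_sqrt (hc0 z), Real.sq_sqrt (hc0 w)]
  -- symmetric partner of xb
  have hxbr' : ∀ z w, ‖inner ℂ (x w) (b z)‖ ^ 2 = c z * c w *
    (4 * ((φ (w - (starRingEnd ℂ) z)).im + (φ ((starRingEnd ℂ) w - (starRingEnd ℂ) z)).im) ^ 2) := by
    intro z w
    rw [hxbr w z]
    have e1 : φ (z - (starRingEnd ℂ) w) = (starRingEnd ℂ) (φ (w - (starRingEnd ℂ) z)) := by
      rw [← hA z w, ← hev]; congr 1; ring
    have e2 : φ ((starRingEnd ℂ) z - (starRingEnd ℂ) w) =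
        φ ((starRingEnd ℂ) w - (starRingEnd ℂ) z) := by
      rw [← hev]; congr 1; ring
    rw [e1, e2, Complex.conj_im]
    ring
  -- trace of T^2
  have htr : (∑ z ∈ Z, ∑ w ∈ Z, (m z : ℂ) * (m w : ℂ) * (φ (z - w)) ^ 2).re =
      ∑ z ∈ P, ∑ w ∈ P, 8 * (c z * c w) * ((φ (w - (starRingEnd ℂ) z) ^ 2).re +
        (φ ((starRingEnd ℂ) w - (starRingEnd ℂ) z) ^ 2).re) := by
    have h1 : ∑ z ∈ Z, ∑ w ∈ Z, (m z : ℂ) * (m w : ℂ) * (φ (z - w)) ^ 2 =
        ∑ z ∈ Z, (m z : ℂ) * ∑ w ∈ P, (2 * c w : ℂ) * (φ (z - w) ^ 2 +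
          φ (z - (starRingEnd ℂ) w) ^ 2) := by
      refine Finset.sum_congr rfl fun z _ => ?_
      rw [← hsplit (fun w => φ (z - w) ^ 2), Finset.mul_sum]
      refine Finset.sum_congr rfl fun w _ => ?_
      ring
    rw [h1, hsplit (fun z => ∑ w ∈ P, (2 * c w : ℂ) * (φ (z - w) ^ 2 +
          φ (z - (starRingEnd ℂ) w) ^ 2)), Complex.re_sum]
    refine Finset.sum_congr rfl fun z _ => ?_
    rw [← Finset.sum_add_distrib, Finset.mul_sum, Complex.re_sum]
    refine Finset.sum_congr rfl fun w _ => ?_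
    have e1 : φ (z - w) = (starRingEnd ℂ) (φ ((starRingEnd ℂ) w - (starRingEnd ℂ) z)) := by
      rw [← hB z w, ← hev]; congr 1; ring
    have e2 : φ (z - (starRingEnd ℂ) w) = (starRingEnd ℂ) (φ (w - (starRingEnd ℂ) z)) := by
      rw [← hA z w, ← hev]; congr 1; ring
    have e3 : φ ((starRingEnd ℂ) z - w) = φ (w - (starRingEnd ℂ) z) := by
      rw [← hev]; congr 1; ring
    have e4 : φ ((starRingEnd ℂ) z - (starRingEnd ℂ) w) =
        φ ((starRingEnd ℂ) w - (starRingEnd ℂ) z) := by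
      rw [← hev]; congr 1; ring
    rw [e1, e2, e3, e4, ← map_pow, ← map_pow]
    set X := φ (w - (starRingEnd ℂ) z) ^ 2
    set W := φ ((starRingEnd ℂ) w - (starRingEnd ℂ) z) ^ 2
    simp only [Complex.mul_re, Complex.add_re, Complex.conj_re, Complex.ofReal_re, Complex.ofReal_im,
      Complex.mul_im, Complex.add_im, Complex.conj_im]
    norm_num
    ring
  have htr2 : ∑ z ∈ P, ∑ w ∈ P, 8 * (c z * c w) * ((φ (w - (starRingEnd ℂ) z) ^ 2).re +
        (φ ((starRingEnd ℂ) w - (starRingEnd ℂ) z) ^ 2).re) =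
      ∑ z ∈ P, ∑ w ∈ P, (r z w) ^ 2 - 2 * ∑ z ∈ P, ∑ w ∈ P, ‖inner ℂ (x z) (b w)‖ ^ 2 +
        ∑ z ∈ P, ∑ w ∈ P, ‖inner ℂ (b z) (b w)‖ ^ 2 := by
    have h1 : 2 * ∑ z ∈ P, ∑ w ∈ P, ‖inner ℂ (x z) (b w)‖ ^ 2 =
        ∑ z ∈ P, ∑ w ∈ P, (‖inner ℂ (x z) (b w)‖ ^ 2 + ‖inner ℂ (x w) (b z)‖ ^ 2) := by
      simp_rw [Finset.sum_add_distrib]
      rw [Finset.sum_comm (f := fun z w => ‖inner ℂ (x w) (b z)‖ ^ 2)]
      ring
    rw [h1, ← Finset.sum_sub_distrib, ← Finset.sum_add_distrib]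
    refine Finset.sum_congr rfl fun z _ => ?_
    rw [← Finset.sum_sub_distrib, ← Finset.sum_add_distrib]
    refine Finset.sum_congr rfl fun w _ => ?_
    have e1 : (r z w) ^ 2 = c z * c w * (2 * (φ (w - (starRingEnd ℂ) z)).re +
        2 * (φ ((starRingEnd ℂ) w - (starRingEnd ℂ) z)).re) ^ 2 := hsq z w _
    rw [hxbr, hxbr', hbbr, Complex.norm_real, Real.norm_eq_abs, sq_abs, e1, hsq,
      sq (φ (w - (starRingEnd ℂ) z)), sq (φ ((starRingEnd ℂ) w - (starRingEnd ℂ) z)),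
      Complex.mul_re, Complex.mul_re]
    ring
  -- facts on S and P
  have hSP : S ⊆ P := by
    intro z hz
    simp only [hS, hP, Finset.mem_filter] at hz ⊢
    exact ⟨hz.1, hz.2.ge⟩
  have hSc : ∀ z ∈ S, c z = (m z : ℝ) / 4 ∧ (starRingEnd ℂ) z = z := by
    intro z hz
    simp only [hS, Finset.mem_filter] at hz
    refine ⟨?_, Complex.conj_eq_iff_im.mpr hz.2⟩
    simp only [hc, if_pos hz.2]
  have hrS : ∀ z ∈ S, ∀ w ∈ S, r z w = Real.sqrt (m z) * Real.sqrt (m w) * (φ (z - w)).re := by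
    intro z hz w hw
    simp only [hr]
    rw [(hSc z hz).1, (hSc w hw).1, (hSc z hz).2, (hSc w hw).2, ← hev (w - z), neg_sub]
    have h4 : Real.sqrt 4 = 2 := by
      rw [show (4 : ℝ) = 2 ^ 2 by norm_num]; exact Real.sqrt_sq (by norm_num)
    rw [Real.sqrt_div (Nat.cast_nonneg _), Real.sqrt_div (Nat.cast_nonneg _), h4]
    ring
  have hrd : ∀ z, r z z = 4 * c z + ‖b z‖ ^ 2 := by
    intro z
    have h1 : ((‖b z‖ ^ 2 : ℝ) : ℂ) = inner ℂ (b z) (b z) := by
      rw [inner_self_eq_norm_sq_to_K]; push_cast; rfl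
    rw [hbbr] at h1
    have h2 := Complex.ofReal_injective h1
    rw [h2]
    simp only [hr, sub_self, h0, Complex.one_re]
    rw [Real.mul_self_sqrt (hc0 z)]
    ring
  have hbS : ∀ z ∈ S, ‖b z‖ ^ 2 = 0 := by
    intro z hz
    have h1 := hrd z
    rw [hrS z hz z hz, (hSc z hz).1, sub_self, h0, Complex.one_re,
      Real.mul_self_sqrt (Nat.cast_nonneg _)] at h1
    linarith
  -- main inequality
  have hmain := la_core_finset P x b D (by
    intro v
    have e1 : ∀ z ∈ P, ∀ w ∈ P, D z w * ((starRingEnd ℂ) (v z) * v w).re =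
        if z ∈ S ∧ w ∈ S then Y z w * ((starRingEnd ℂ) (v z) * v w).re
          else if z = w then 2 * ‖v z‖ ^ 2 else 0 := by
      intro z _ w _
      simp only [hD]
      by_cases h1 : z ∈ S ∧ w ∈ S
      · rw [if_pos h1, if_pos h1]
      · rw [if_neg h1, if_neg h1]
        by_cases h2 : z = w
        · rw [if_pos h2, if_pos h2, ← h2, Complex.conj_mul']
          rw [← Complex.ofReal_pow, Complex.ofReal_re]
        · rw [if_neg h2, if_neg h2, zero_mul]
    rw [Finset.sum_congr rfl fun z hz => Finset.sum_congr rfl fun w hw => e1 z hz w hw,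
      dsum P S hSP]
    rw [← Finset.sum_sdiff hSP, ← Finset.mul_sum]
    have := hY v
    linarith)
  have hDr : ∑ z ∈ P, ∑ w ∈ P, ‖inner ℂ (x z) (x w) - (D z w : ℂ)‖ ^ 2 =
      ∑ z ∈ P, ∑ w ∈ P, (r z w) ^ 2 - 2 * (∑ z ∈ S, ∑ w ∈ S,
        Y z w * (Real.sqrt (m z) * Real.sqrt (m w) * (φ (z - w)).re) + ∑ z ∈ P \ S, 2 * r z z)
        + (∑ z ∈ S, ∑ w ∈ S, (Y z w) ^ 2 + ∑ z ∈ P \ S, (4 : ℝ)) := by
    have e1 : ∀ z ∈ P, ∀ w ∈ P, D z w * r z w =
        if z ∈ S ∧ w ∈ S then Y z w * (Real.sqrt (m z) * Real.sqrt (m w) * (φ (z - w)).re)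
          else if z = w then 2 * r z z else 0 := by
      intro z _ w _
      simp only [hD]
      by_cases h1 : z ∈ S ∧ w ∈ S
      · rw [if_pos h1, if_pos h1, hrS z h1.1 w h1.2]
      · rw [if_neg h1, if_neg h1]
        by_cases h2 : z = w
        · rw [if_pos h2, if_pos h2, ← h2]
        · rw [if_neg h2, if_neg h2, zero_mul]
    have e2 : ∀ z ∈ P, ∀ w ∈ P, (D z w) ^ 2 =
        if z ∈ S ∧ w ∈ S then (Y z w) ^ 2
          else if z = w then 4 else 0 := by
      intro z _ w _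
      simp only [hD]
      by_cases h1 : z ∈ S ∧ w ∈ S
      · rw [if_pos h1, if_pos h1]
      · rw [if_neg h1, if_neg h1]
        by_cases h2 : z = w
        · rw [if_pos h2, if_pos h2]; norm_num
        · rw [if_neg h2, if_neg h2]; norm_num
    rw [← dsum P S hSP, ← dsum P S hSP]
    rw [← Finset.sum_congr rfl fun z hz => Finset.sum_congr rfl fun w hw => e1 z hz w hw,
      ← Finset.sum_congr rfl fun z hz => Finset.sum_congr rfl fun w hw => e2 z hz w hw,
      Finset.mul_sum, ← Finset.sum_sub_distrib, ← Finset.sum_add_distrib]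
    refine Finset.sum_congr rfl fun z _ => ?_
    rw [Finset.mul_sum, ← Finset.sum_sub_distrib, ← Finset.sum_add_distrib]
    refine Finset.sum_congr rfl fun w _ => ?_
    rw [hxxr, ← Complex.ofReal_sub, Complex.norm_real, Real.norm_eq_abs, sq_abs]
    ring
  have hN : ∑ z ∈ P, 4 * c z = ∑ z ∈ Z, (m z : ℝ) := by
    have h1 := hsplit (fun _ => 1)
    apply Complex.ofReal_injective
    push_cast
    simp only [mul_one] at h1
    rw [h1]
    refine Finset.sum_congr rfl fun z _ => ?_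
    ring
  have hNS : ∑ z ∈ S, 4 * c z = ∑ z ∈ S, (m z : ℝ) := by
    refine Finset.sum_congr rfl fun z hz => ?_
    rw [(hSc z hz).1]; ring
  -- the points above the real line
  have hup : ∀ z ∈ P \ S, (1 : ℝ) ≤ 2 * c z := by
    intro z hz
    have hz1 := Finset.mem_sdiff.mp hz
    have hz2 : z ∈ Z := (Finset.mem_filter.mp hz1.1).1
    have hz3 : ¬ z.im = 0 := fun h => hz1.2 (Finset.mem_filter.mpr ⟨hz2, h⟩)
    simp only [hc, if_neg hz3]
    have : (1 : ℝ) ≤ m z := by exact_mod_cast hm1 z hz2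
    linarith
  have hsum2 : ∑ z ∈ P \ S, (4 : ℝ) ≤ ∑ z ∈ P \ S, 2 * (4 * c z) := by
    refine Finset.sum_le_sum fun z hz => ?_
    have := hup z hz
    linarith
  have hsum1 : ∑ z ∈ P \ S, 2 * r z z = ∑ z ∈ P \ S, 2 * (4 * c z) +
      2 * ∑ z ∈ P, ‖b z‖ ^ 2 := by
    have e3 := Finset.sum_sdiff (f := fun z => ‖b z‖ ^ 2) hSP
    have e4 : ∑ z ∈ S, ‖b z‖ ^ 2 = 0 := Finset.sum_eq_zero fun z hz => hbS z hz
    rw [e4, add_zero] at e3
    rw [← e3, Finset.mul_sum, ← Finset.sum_add_distrib]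
    refine Finset.sum_congr rfl fun z _ => ?_
    rw [hrd]; ring
  have hsum4 : ∑ z ∈ P \ S, 2 * (4 * c z) =
      2 * (∑ z ∈ Z, (m z : ℝ) - ∑ z ∈ S, (m z : ℝ)) := by
    have e2 := Finset.sum_sdiff (f := fun z => 4 * c z) hSP
    rw [hN, hNS] at e2
    rw [← Finset.mul_sum]
    linarith
  rw [htr, htr2]
  rw [hDr, hsum1] at hmain
  linarith

end Pool.Agent.Helper647.GL
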