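import Pool.Agent.Helper647_GL.Cell
import Pool.Agent.R304.GR.Sum

/-! Critical zeros with multiplicities in blocks. -/

open Complex Filter Topology Set MeasureTheory
open scoped BigOperators ComplexConjugate

namespace Pool.Agent.Helper647.GL

open H370 Pool.Agent.W201 Pool.Agent.R304.GR

/-- the ordinates of the critical zeros in `(U1, U2]` -/
noncomputable def CF (F : ℂ → ℂ) (U1 U2 : ℝ) : Finset ℝ := by
  classical
  exact ((Zf F U1 U2).filter (fun s => s.re = 1 / 2)).image Complex.im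

/-- multiplicity of `1/2 + i x` -/
noncomputable def mo (F : ℂ → ℂ) (x : ℝ) : ℕ := mult F (1 / 2 + I * x)

lemma CF_injOn {F : ℂ → ℂ} {U1 U2 : ℝ} : Set.InjOn Complex.im
    ((Zf F U1 U2).filter (fun s => s.re = 1 / 2) : Set ℂ) := by
  intro s hs s' hs' h
  have h1 := (Finset.mem_filter.mp hs).2
  have h2 := (Finset.mem_filter.mp hs').2
  exact Complex.ext (by rw [h1, h2]) h

lemma half_eta {s : ℂ} (h : s.re = 1 / 2) : (1 / 2 + I * (s.im : ℂ)) = s := by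
  apply Complex.ext <;> simp [h]

lemma mem_CF {F : ℂ → ℂ} {U1 U2 x : ℝ} :
    x ∈ CF F U1 U2 ↔ (1 / 2 + I * x : ℂ) ∈ Zf F U1 U2 := by
  unfold CF
  rw [Finset.mem_image]
  constructor
  · rintro ⟨s, hs, rfl⟩
    rw [Finset.mem_filter] at hs
    rw [half_eta hs.2]
    exact hs.1
  · intro h
    exact ⟨_, Finset.mem_filter.mpr ⟨h, by simp⟩, by simp⟩

lemma sum_CF {F : ℂ → ℂ} {U1 U2 : ℝ} {M : Type*} [AddCommMonoid M] (f : ℝ → M) :
    ∑ x ∈ CF F U1 U2, f x =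
      ∑ s ∈ (Zf F U1 U2).filter (fun s => s.re = 1 / 2), f s.im := by
  unfold CF
  rw [Finset.sum_image CF_injOn]

section

variable {F : ℂ → ℂ} (hF : GoodL F) {U1 U2 : ℝ} (hU : 1 ≤ U1)

include hF hU in
lemma CF_mem {x : ℝ} (hx : x ∈ CF F U1 U2) : U1 < x ∧ x ≤ U2 := by
  rw [mem_CF, mem_Zf hF hU] at hx
  have him : (1 / 2 + I * (x : ℂ)).im = x := by simp
  have h1 := hx.2.2.1
  have h2 := hx.2.2.2.1
  rw [him] at h1 h2
  exact ⟨h1, h2⟩

include hF hU in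
lemma mo_pos {x : ℝ} (hx : x ∈ CF F U1 U2) : 1 ≤ mo F x := by
  rw [mem_CF, mem_Zf hF hU] at hx
  exact Loc.mult_pos' hF (by linarith [hx.2.2.1]) hx.2.2.2.2

include hF hU in
/-- the trace inequality for all critical zeros -/
theorem trace_crit (Λ : ℝ) {q : ℝ} (h : Has Λ (mo F) q (CF F U1 U2)) :
    2 * ((NN F U1 U2 : ℝ) - ∑ x ∈ CF F U1 U2, (mo F x : ℝ)) + q ≤ QQ F Λ U1 U2 := by
  classical
  obtain ⟨Y, hY, hq⟩ := h
  obtain ⟨E, iE1, iE2, k, hk⟩ := gram_exists Λ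
  set W := Zf F U1 U2 with hW
  set Z : Finset ℂ := W.image zz with hZ
  set m : ℂ → ℕ := fun z => mult F (1 / 2 + I * z) with hm
  have hback : ∀ s : ℂ, (1 / 2 + I * zz s) = s := by
    intro s
    have := zz_spec s
    linear_combination -this
  have hmz : ∀ s : ℂ, m (zz s) = mult F s := by
    intro s; simp only [hm]; rw [hback]
  have hWm : ∀ s ∈ W, s ∈ zset F U1 U2 := fun s hs => (mem_Zf hF hU).mp hs
  have hWpos : ∀ s ∈ W, 1 ≤ mult F s := by
    intro s hs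
    have := hWm s hs
    exact Loc.mult_pos' hF (by linarith [this.2.2.1]) this.2.2.2.2
  have hf1 : Z.filter (fun z => z.im = 0) = (W.filter (fun s => s.re = 1 / 2)).image zz := by
    ext z
    simp only [Finset.mem_filter, Finset.mem_image, hZ]
    constructor
    · rintro ⟨⟨s, hs, rfl⟩, h1⟩
      rw [zz_im] at h1
      exact ⟨s, ⟨hs, by linarith⟩, rfl⟩
    · rintro ⟨s, ⟨hs, h1⟩, rfl⟩
      refine ⟨⟨s, hs, rfl⟩, ?_⟩
      rw [zz_im, h1]; ring
  have hsum1 : ∀ {M : Type} [AddCommMonoid M] (f : ℂ → M),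
      ∑ z ∈ Z.filter (fun z => z.im = 0), f z = ∑ x ∈ CF F U1 U2, f (x : ℂ) := by
    intro M _ f
    rw [hf1, Finset.sum_image (fun s _ s' _ h => zz_inj h), sum_CF]
    refine Finset.sum_congr rfl fun s hs => ?_
    rw [zz_simple (Finset.mem_filter.mp hs).2]
  have hsumZ : ∀ {M : Type} [AddCommMonoid M] (f : ℂ → M),
      ∑ z ∈ Z, f z = ∑ s ∈ W, f (zz s) := by
    intro M _ f
    rw [hZ, Finset.sum_image (fun s _ s' _ h => zz_inj h)]
  have hN : ∑ z ∈ Z, (m z : ℝ) = NN F U1 U2 := by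
    rw [NN_eq hF hU, hsumZ]
    simp only [hmz]
    push_cast; rfl
  have hZc : ∀ z ∈ Z, conj z ∈ Z := by
    intro z hz
    rw [hZ, Finset.mem_image] at hz
    obtain ⟨s, hs, rfl⟩ := hz
    rw [← zz_refl]
    exact Finset.mem_image_of_mem _ ((mem_Zf hF hU).mpr (zset_refl hF hU (hWm s hs)))
  have hmp : ∀ z ∈ Z, 1 ≤ m z := by
    intro z hz
    rw [hZ, Finset.mem_image] at hz
    obtain ⟨s, hs, rfl⟩ := hz
    rw [hmz]
    exact hWpos s hs
  have hT := trace_real (phi Λ) k hk (phi_even Λ) (phi_zero Λ) Z hZc m hmp ?_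
    (fun z w => Y z.re w.re) ?_
  · simp only [hsum1, hN] at hT
    have hQ : (∑ z ∈ Z, ∑ w ∈ Z, (m z : ℂ) * (m w : ℂ) * (phi Λ (z - w)) ^ 2).re
        = QQ F Λ U1 U2 := by
      rw [QQ_eq hF hU, hsumZ]
      simp only [hsumZ, hmz, ← hW]
    rw [hQ] at hT
    have hV : 2 * ∑ x ∈ CF F U1 U2, ∑ y ∈ CF F U1 U2,
        Y (x : ℂ).re (y : ℂ).re * (Real.sqrt (m x) * Real.sqrt (m y) * (phi Λ ((x : ℂ) - y)).re)
        - ∑ x ∈ CF F U1 U2, ∑ y ∈ CF F U1 U2, (Y (x : ℂ).re (y : ℂ).re) ^ 2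
        = Val Λ (mo F) (CF F U1 U2) Y := by
      unfold Val
      simp only [Complex.ofReal_re, hm, mo]
    rw [hV] at hT
    have hmm : ∑ x ∈ CF F U1 U2, (m (x : ℂ) : ℝ) = ∑ x ∈ CF F U1 U2, (mo F x : ℝ) := rfl
    rw [hmm] at hT
    linarith
  · intro z hz
    rw [hZ, Finset.mem_image] at hz
    obtain ⟨s, hs, rfl⟩ := hz
    have := hWm s hs
    rw [← zz_refl, hmz, hmz, mult_refl hF this.1 this.2.1 (by linarith [this.2.2.1])]
  · intro v
    simp only [hsum1, Complex.ofReal_re]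
    exact hY (fun x => v x)

end

/-- the number (with multiplicity) of critical zeros with label `i` -/
noncomputable def cnt (F : ℂ → ℂ) (U1 U2 : ℝ) (lab : ℝ → ℤ) (i : ℤ) : ℕ := by
  classical
  exact ∑ x ∈ (CF F U1 U2).filter (fun x => lab x = i), mo F x

open Classical in
/-- the test matrices of a set that is divided into blocks -/
theorem blocks_has {σ θ Λ s : ℝ} (hσ0 : 0 < σ) (hθ0 : 0 < θ) (hΛ : Λ * σ = 2 * Real.pi * θ)
    (hs0 : 0 ≤ s) (hs1 : θ * (s / σ) ≤ 1) (hs2 : 1.6 * (θ * (s / σ)) + s ^ 2 / 4 ≤ 1.6)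
    (hs3 : s ^ 2 ≤ 1 / 10 ^ 5)
    (m : ℝ → ℕ) (S : Finset ℝ) (hm : ∀ x ∈ S, 1 ≤ m x) (lab : ℝ → ℤ)
    (hS : ∀ x ∈ S, ∀ y ∈ S, lab x = lab y → y - x ≤ s) :
    ∀ I : Finset ℤ, Has Λ m (2 * ((∑ x ∈ S.filter (fun x => lab x ∈ I), m x : ℕ) : ℝ) -
      ∑ i ∈ I, vv (∑ x ∈ S.filter (fun x => lab x = i), m x)) (S.filter (fun x => lab x ∈ I)) := by
  intro I
  induction I using Finset.induction_on with
  | empty =>
    simp only [Finset.notMem_empty, Finset.filter_false, Finset.sum_empty]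
    exact ⟨fun _ _ => 0, fun v => by simp, by unfold Val; simp⟩
  | insert i I hi ih =>
    have h1 := Has.cell hσ0 hθ0 hΛ (m := m) hs0 hs1 hs2 hs3
      (S := S.filter (fun x => lab x = i)) (fun x hx => hm x (Finset.mem_filter.mp hx).1)
      (fun x hx y hy => by
        rw [Finset.mem_filter] at hx hy
        exact hS x hx.1 y hy.1 (hx.2.trans hy.2.symm))
    have hd : Disjoint (S.filter (fun x => lab x = i)) (S.filter (fun x => lab x ∈ I)) := by
      rw [Finset.disjoint_left]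
      intro x hx hx'
      rw [Finset.mem_filter] at hx hx'
      exact hi (hx.2 ▸ hx'.2)
    have h2 := h1.union hd ih
    have e1 : S.filter (fun x => lab x = i) ∪ S.filter (fun x => lab x ∈ I) =
        S.filter (fun x => lab x ∈ insert i I) := by
      ext x
      simp only [Finset.mem_union, Finset.mem_filter, Finset.mem_insert]
      tauto
    rw [e1] at h2
    refine h2.mono (le_of_eq ?_)
    rw [Finset.sum_insert hi, ← e1, Finset.sum_union hd]
    push_cast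
    ring

/-- **the profile of the blocks** -/
theorem blocks_profile {F : ℂ → ℂ} (hF : GoodL F) {U1 U2 : ℝ} (hU : 1 ≤ U1) {σ θ Λ s : ℝ}
    (hσ0 : 0 < σ) (hθ0 : 0 < θ) (hΛ : Λ * σ = 2 * Real.pi * θ)
    (hs0 : 0 ≤ s) (hs1 : θ * (s / σ) ≤ 1) (hs2 : 1.6 * (θ * (s / σ)) + s ^ 2 / 4 ≤ 1.6)
    (hs3 : s ^ 2 ≤ 1 / 10 ^ 5) (lab : ℝ → ℤ)
    (hS : ∀ x ∈ CF F U1 U2, ∀ y ∈ CF F U1 U2, lab x = lab y → y - x ≤ s) :
    2 * (NN F U1 U2 : ℝ) - QQ F Λ U1 U2 ≤
      ∑ i ∈ (CF F U1 U2).image lab, vv (cnt F U1 U2 lab i) := by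
  classical
  have h := blocks_has hσ0 hθ0 hΛ hs0 hs1 hs2 hs3 (mo F) (CF F U1 U2)
    (fun x hx => mo_pos hF hU hx) lab hS ((CF F U1 U2).image lab)
  have e : (CF F U1 U2).filter (fun x => lab x ∈ (CF F U1 U2).image lab) = CF F U1 U2 :=
    Finset.filter_true_of_mem fun x hx => Finset.mem_image_of_mem lab hx
  rw [e] at h
  have h1 := trace_crit hF hU Λ h
  unfold cnt
  push_cast at h1 ⊢
  linarith

end Pool.Agent.Helper647.GL
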